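import Pool.Agent.TH221.Defs

/-!
The `Lⁿ` norm of functions with values in `[0, ∞]`.
-/

set_option autoImplicit false

open MeasureTheory Set Filter Topology Metric
open scoped ENNReal NNReal

namespace Pool.Agent.TH221

variable {n : ℕ}

/-- `Lⁿ` norm -/
noncomputable def nrm (μ : Measure (Eu n)) (f : Eu n → ℝ≥0∞) : ℝ≥0∞ :=
  (∫⁻ x, f x ^ n ∂μ) ^ (1 / (n : ℝ))

variable {μ : Measure (Eu n)} {f g : Eu n → ℝ≥0∞}

lemma nrm_pow (hn : 1 ≤ n) : nrm μ f ^ n = ∫⁻ x, f x ^ n ∂μ := by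
  unfold nrm
  rw [← ENNReal.rpow_natCast, ← ENNReal.rpow_mul, one_div, inv_mul_cancel₀ (by positivity),
    ENNReal.rpow_one]

lemma nrm_le_iff (hn : 1 ≤ n) {c : ℝ≥0∞} : nrm μ f ≤ c ↔ ∫⁻ x, f x ^ n ∂μ ≤ c ^ n := by
  rw [← nrm_pow (μ := μ) (f := f) hn]
  exact (ENNReal.pow_le_pow_left_iff (by omega)).symm

lemma nrm_add_le (hn : 1 ≤ n) (hf : AEMeasurable f μ) (hg : AEMeasurable g μ) :
    nrm μ (fun x => f x + g x) ≤ nrm μ f + nrm μ g := by
  have h := ENNReal.lintegral_Lp_add_le hf hg (p := (n : ℝ)) (by exact_mod_cast hn)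
  simpa [nrm, ENNReal.rpow_natCast] using h

lemma nrm_mono (h : ∀ x, f x ≤ g x) : nrm μ f ≤ nrm μ g := by
  unfold nrm
  gcongr
  exact h _

lemma nrm_mono_ae (h : ∀ᵐ x ∂μ, f x ≤ g x) : nrm μ f ≤ nrm μ g := by
  unfold nrm
  refine ENNReal.rpow_le_rpow ?_ (by positivity)
  refine lintegral_mono_ae ?_
  filter_upwards [h] with x hx
  gcongr

lemma nrm_mono_measure {ν : Measure (Eu n)} (h : μ ≤ ν) : nrm μ f ≤ nrm ν f := by
  unfold nrm
  refine ENNReal.rpow_le_rpow ?_ (by positivity)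
  exact lintegral_mono' h le_rfl

lemma nrm_const_mul (hn : 1 ≤ n) {c : ℝ≥0∞} (hc : c ≠ ⊤) :
    nrm μ (fun x => c * f x) = c * nrm μ f := by
  unfold nrm
  simp only [mul_pow]
  rw [lintegral_const_mul' _ _ (by finiteness), ENNReal.mul_rpow_of_nonneg _ _ (by positivity),
    ← ENNReal.rpow_natCast, ← ENNReal.rpow_mul, mul_one_div_cancel (by positivity),
    ENNReal.rpow_one]

lemma nrm_ne_top (h : ∫⁻ x, f x ^ n ∂μ ≠ ⊤) : nrm μ f ≠ ⊤ := by
  unfold nrm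
  exact ENNReal.rpow_ne_top_of_nonneg (by positivity) h

end Pool.Agent.TH221
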