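import Pool.Agent.TH221.Sep
import Pool.Agent.TH221.Norm

/-!
Auxiliary facts for the construction of the potential.
-/

set_option autoImplicit false

open MeasureTheory Set Filter Topology Metric
open scoped ENNReal NNReal

namespace Pool.Agent.TH221

variable {n : ℕ} {K E : Set (Eu n)} {ρ : Eu n → ℝ≥0∞}

lemma lsc_indicator {U : Set (Eu n)} (hU : IsOpen U) {f : Eu n → ℝ≥0∞} (hf : ContinuousOn f U) :
    LowerSemicontinuous (U.indicator f) := by
  intro x c hc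
  by_cases hx : x ∈ U
  · rw [indicator_of_mem hx] at hc
    have h1 : ContinuousAt f x := hf.continuousAt (hU.mem_nhds hx)
    filter_upwards [h1.eventually_const_lt hc, hU.mem_nhds hx] with y hy hyU
    rwa [indicator_of_mem hyU]
  · rw [indicator_of_notMem hx] at hc
    exact absurd hc not_lt_zero

lemma bdd_near {f : Eu n → ℝ≥0∞} {z : Eu n} (hf : ContinuousAt f z) (hz : f z ≠ ⊤) {M : ℝ≥0∞}
    (hM : f z < M) : ∀ᶠ y in 𝓝 z, f y ≤ M := by
  filter_upwards [hf.eventually_lt_const hM] with y hy using hy.le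

lemma LocB.of_eventually {z : Eu n} {M : ℝ≥0∞} (hM : M ≠ ⊤)
    (h : ∀ᶠ y in 𝓝 z, y ∉ E ∧ ρ y ≤ M) : LocB K E ρ z := by
  obtain ⟨r, hr, hr'⟩ := Metric.eventually_nhds_iff_ball.1 h
  exact ⟨r, hr, M, hM, fun y hy => hr' y hy.1⟩

/-- the distance controls the oscillation near a point of local boundedness -/
lemma lip_of_dist' (hKc : Convex ℝ K) {v : Eu n → ℝ}
    (hv : ∀ x ∈ K, ∀ y ∈ K, ENNReal.ofReal (v x - v y) ≤ dist' K E ρ x y) {z : Eu n} {r : ℝ}
    {M : ℝ≥0∞} (hM : M ≠ ⊤) (h : ∀ y ∈ ball z r, y ∉ E ∧ ρ y ≤ M) (hsub : ball z r ⊆ K) :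
    LipschitzOnWith M.toNNReal v (ball z r) := by
  have key : ∀ x ∈ ball z r, ∀ y ∈ ball z r, v x - v y ≤ M.toReal * dist x y := by
    intro x hx y hy
    have h1 := (hv x (hsub hx) y (hsub hy)).trans
      (dist'_seg_le (z := z) (r := r) hKc (fun y hy => h y hy.1) ⟨hx, hsub hx⟩ ⟨hy, hsub hy⟩)
    have h2 := (ENNReal.ofReal_le_iff_le_toReal (by finiteness)).1 h1
    rwa [ENNReal.toReal_mul, ENNReal.toReal_ofReal dist_nonneg] at h2
  refine LipschitzOnWith.of_dist_le_mul fun x hx y hy => ?_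
  rw [Real.dist_eq, abs_le, ENNReal.coe_toNNReal_eq_toReal]
  constructor
  · have := key y hy x hx
    rw [dist_comm] at this
    linarith
  · exact key x hx y hy

/-- gradient bound at points of continuity -/
lemma fderiv_le_of_dist' (hKc : Convex ℝ K) (hE : IsClosed E) {v : Eu n → ℝ}
    (hv : ∀ x ∈ K, ∀ y ∈ K, ENNReal.ofReal (v x - v y) ≤ dist' K E ρ x y) {z : Eu n}
    (hzK : z ∈ interior K) (hzE : z ∉ E) (hcont : ContinuousAt ρ z) :
    ENNReal.ofReal ‖fderiv ℝ v z‖ ≤ ρ z := by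
  rcases eq_or_ne (ρ z) ⊤ with htop | htop
  · rw [htop]; exact le_top
  refine ENNReal.le_of_forall_pos_le_add fun ε hε _ => ?_
  have h1 : ∀ᶠ y in 𝓝 z, ρ y ≤ ρ z + ε :=
    bdd_near hcont htop (ENNReal.lt_add_right htop (by simpa using hε.ne'))
  have h2 : ∀ᶠ y in 𝓝 z, y ∉ E := hE.isOpen_compl.mem_nhds hzE
  have h3 : ∀ᶠ y in 𝓝 z, y ∈ K := mem_interior_iff_mem_nhds.1 hzK
  obtain ⟨r, hr, hr'⟩ := Metric.eventually_nhds_iff_ball.1 (h1.and (h2.and h3))
  have hM : ρ z + ε ≠ ⊤ := by finiteness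
  have h4 := lip_of_dist' hKc hv (z := z) (r := r) hM (fun y hy => ⟨(hr' y hy).2.1, (hr' y hy).1⟩)
    (fun y hy => (hr' y hy).2.2)
  have h5 := norm_fderiv_le_of_lipschitzOn ℝ (ball_mem_nhds z hr) h4
  rw [ENNReal.coe_toNNReal_eq_toReal] at h5
  calc _ ≤ ENNReal.ofReal (ρ z + ε).toReal := ENNReal.ofReal_le_ofReal h5
    _ = _ := ENNReal.ofReal_toReal hM

end Pool.Agent.TH221
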