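import Pool.Agent.TH221.Splice

/-!
Compactness of families of curves; lower semicontinuity of `dist'`.
-/

set_option autoImplicit false

open MeasureTheory Set Filter Topology Metric
open scoped ENNReal NNReal

namespace Pool.Agent.TH221

variable {n : ℕ} {K E : Set (Eu n)} {ρ : Eu n → ℝ≥0∞}

/-- stop a curve at the times `0` and `ℓ` -/
noncomputable def clampC (γ : ℝ → Eu n) (ℓ : ℝ) : ℝ → Eu n := fun s => γ (max 0 (min s ℓ))

lemma clampC_eq {γ : ℝ → Eu n} {ℓ s : ℝ} (hs : s ∈ Icc 0 ℓ) : clampC γ ℓ s = γ s := by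
  unfold clampC
  rw [min_eq_left hs.2, max_eq_right hs.1]

lemma clampC_mem {γ : ℝ → Eu n} {ℓ : ℝ} (hℓ : 0 ≤ ℓ) (h : ∀ s ∈ Icc 0 ℓ, γ s ∈ K) (s : ℝ) :
    clampC γ ℓ s ∈ K :=
  h _ ⟨le_max_left _ _, max_le hℓ (min_le_right _ _)⟩

lemma clampC_lip {γ : ℝ → Eu n} {ℓ : ℝ} (h : LipschitzWith 1 γ) : LipschitzWith 1 (clampC γ ℓ) := by
  have h1 : LipschitzWith 1 (fun s : ℝ => max 0 (min s ℓ)) :=
    (LipschitzWith.id.min_const ℓ).const_max 0
  have := h.comp h1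
  rwa [mul_one] at this

lemma Crv.clamp {x y : Eu n} {γ : ℝ → Eu n} {ℓ : ℝ} (h : Crv K E x y γ ℓ) :
    Crv K E x y (clampC γ ℓ) ℓ where
  lip := clampC_lip h.lip
  nonneg := h.nonneg
  left := by rw [clampC_eq ⟨le_rfl, h.nonneg⟩, h.left]
  right := by rw [clampC_eq ⟨h.nonneg, le_rfl⟩, h.right]
  mem := fun s _ => clampC_mem h.nonneg h.mem s
  cnt := by
    refine h.cnt.mono (inter_subset_inter_left _ ?_)
    rintro _ ⟨s, hs, rfl⟩
    exact ⟨s, hs, (clampC_eq hs).symm⟩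

lemma cost_clampC {γ : ℝ → Eu n} {ℓ : ℝ} : cost ρ (clampC γ ℓ) 0 ℓ = cost ρ γ 0 ℓ :=
  cost_congr fun _ hs => clampC_eq hs

/-- sequential compactness of `1`-Lipschitz curves -/
theorem exists_subseq_curve (hK : IsCompact K) {γ : ℕ → ℝ → Eu n}
    (hlip : ∀ k, LipschitzWith 1 (γ k)) (hmem : ∀ k s, γ k s ∈ K) {ℓ : ℕ → ℝ} {C : ℝ}
    (hℓ : ∀ k, ℓ k ∈ Icc 0 C) :
    ∃ (φ : ℕ → ℕ) (g : ℝ → Eu n) (L : ℝ), StrictMono φ ∧ LipschitzWith 1 g ∧ L ∈ Icc 0 C ∧
      Tendsto (fun k => ℓ (φ k)) atTop (𝓝 L) ∧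
      ∀ s, Tendsto (fun k => γ (φ k) s) atTop (𝓝 (g s)) := by
  haveI : CompactSpace K := isCompact_iff_compactSpace.1 hK
  haveI : CompactSpace (Icc (0:ℝ) C) := isCompact_iff_compactSpace.1 isCompact_Icc
  let f : ℕ → (ℚ → K) × (Icc (0:ℝ) C) := fun k => (fun r => ⟨γ k r, hmem k r⟩, ⟨ℓ k, hℓ k⟩)
  obtain ⟨a, φ, hφ, ha⟩ := CompactSpace.tendsto_subseq f
  have h1 : Tendsto (fun k => (f (φ k)).1) atTop (𝓝 a.1) :=
    (continuous_fst.tendsto a).comp ha
  have h2 : Tendsto (fun k => (f (φ k)).2) atTop (𝓝 a.2) :=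
    (continuous_snd.tendsto a).comp ha
  have h3 : ∀ r : ℚ, Tendsto (fun k => γ (φ k) r) atTop (𝓝 (a.1 r : Eu n)) := by
    intro r
    have := (tendsto_pi_nhds.1 h1) r
    exact (continuous_subtype_val.tendsto _).comp this
  have h4 : Tendsto (fun k => ℓ (φ k)) atTop (𝓝 (a.2 : ℝ)) :=
    (continuous_subtype_val.tendsto _).comp h2
  have h5 : ∀ s : ℝ, CauchySeq (fun k => γ (φ k) s) := by
    intro s
    rw [Metric.cauchySeq_iff]
    intro ε hε
    obtain ⟨r, hr1, hr2⟩ := exists_rat_btwn (show s < s + ε / 3 by linarith)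
    obtain ⟨N, hN⟩ := (Metric.cauchySeq_iff.1 (h3 r).cauchySeq) (ε / 3) (by linarith)
    refine ⟨N, fun i hi j hj => ?_⟩
    have e1 : dist (γ (φ i) s) (γ (φ i) r) ≤ r - s := dist_le_of_lip (hlip _) hr1.le
    have e2 : dist (γ (φ j) s) (γ (φ j) r) ≤ r - s := dist_le_of_lip (hlip _) hr1.le
    calc _ ≤ dist (γ (φ i) s) (γ (φ i) r) + dist (γ (φ i) r) (γ (φ j) r) +
          dist (γ (φ j) r) (γ (φ j) s) := dist_triangle4 _ _ _ _
      _ < ε := by
        rw [dist_comm (γ (φ j) r)]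
        have := hN i hi j hj
        linarith
  choose g hg using fun s => cauchySeq_tendsto_of_complete (h5 s)
  refine ⟨φ, g, a.2, hφ, lip_of_le fun s t hst => ?_, a.2.2, h4, hg⟩
  exact le_of_tendsto' ((hg s).dist (hg t)) fun k => dist_le_of_lip (hlip _) hst

/-- the limit curve of almost minimizing curves -/
theorem limit_curve (hK : IsCompact K) (hKc : Convex ℝ K) (hρ : LowerSemicontinuous ρ)
    {η : ℝ} (hη : 0 < η) (hρη : ∀ z ∈ K, ENNReal.ofReal η ≤ ρ z) (hρE : ∀ z ∈ K ∩ E, ρ z = ⊤)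
    {c : ℝ≥0∞} (hc : c ≠ ⊤) {x y : ℕ → Eu n} {x' y' : Eu n} (hx : Tendsto x atTop (𝓝 x'))
    (hy : Tendsto y atTop (𝓝 y')) (hd : ∀ k, dist' K E ρ (x k) (y k) ≤ c) :
    ∃ (g : ℝ → Eu n) (L : ℝ), LipschitzWith 1 g ∧ 0 ≤ L ∧ g 0 = x' ∧ g L = y' ∧
      (∀ s ∈ Icc 0 L, g s ∈ K) ∧
      ∀ s₁ s₂, 0 ≤ s₁ → s₁ ≤ s₂ → s₂ ≤ L →
        (∀ t ∈ Ioo s₁ s₂, g t ∉ E → LocB K E ρ (g t)) → dist' K E ρ (g s₁) (g s₂) ≤ c := by
  have hex : ∀ k : ℕ, ∃ γ ℓ, Crv K E (x k) (y k) γ ℓ ∧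
      cost ρ γ 0 ℓ < c + ((k : ℝ≥0∞) + 1)⁻¹ := fun k =>
    exists_crv_of_lt ((hd k).trans_lt (ENNReal.lt_add_right hc (by simp)))
  choose γ₀ ℓ hγ₀ hcost₀ using hex
  set γ : ℕ → ℝ → Eu n := fun k => clampC (γ₀ k) (ℓ k) with hγdef
  have hγ : ∀ k, Crv K E (x k) (y k) (γ k) (ℓ k) := fun k => (hγ₀ k).clamp
  have hcost : ∀ k, cost ρ (γ k) 0 (ℓ k) < c + ((k : ℝ≥0∞) + 1)⁻¹ := fun k => by
    rw [hγdef]; simp only [cost_clampC]; exact hcost₀ k
  have hinv : ∀ k : ℕ, ((k : ℝ≥0∞) + 1)⁻¹ ≤ 1 := fun k => by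
    rw [ENNReal.inv_le_one]; exact le_add_self
  have hC : ∀ k, ℓ k ∈ Icc 0 ((c + 1).toReal / η) := by
    intro k
    refine ⟨(hγ k).nonneg, ?_⟩
    rw [le_div_iff₀ hη, mul_comm]
    refine (ENNReal.ofReal_le_iff_le_toReal (by finiteness)).1 ?_
    exact ((hγ k).length_le hρη hη.le).trans ((hcost k).le.trans (by gcongr; exact hinv k))
  obtain ⟨φ, g, L, hφ, hg, hL, hℓφ, hgφ⟩ := exists_subseq_curve hK
    (fun k => (hγ k).lip) (fun k s => clampC_mem (hγ₀ k).nonneg (hγ₀ k).mem s) hC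
  have hgK : ∀ s, g s ∈ K := fun s => hK.isClosed.mem_of_tendsto (hgφ s)
    (Eventually.of_forall fun k => clampC_mem (hγ₀ (φ k)).nonneg (hγ₀ (φ k)).mem s)
  have hliminf : liminf (fun k => cost ρ (γ (φ k)) 0 (ℓ (φ k))) atTop ≤ c := by
    have h1 : Tendsto (fun k : ℕ => c + (((φ k : ℕ) : ℝ≥0∞) + 1)⁻¹) atTop (𝓝 (c + 0)) := by
      refine Tendsto.const_add c ?_
      have h2 : Tendsto (fun k : ℕ => ((k : ℝ≥0∞) + 1)⁻¹) atTop (𝓝 0) := by
        refine tendsto_of_tendsto_of_tendsto_of_le_of_le tendsto_const_nhds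
          ENNReal.tendsto_inv_nat_nhds_zero (fun _ => zero_le) fun k => ?_
        exact ENNReal.inv_le_inv.2 le_self_add
      exact h2.comp hφ.tendsto_atTop
    rw [add_zero] at h1
    rw [← h1.liminf_eq]
    exact liminf_le_liminf (Eventually.of_forall fun k => (hcost (φ k)).le)
  -- the limit curve has finite cost
  have hρm : Measurable ρ := hρ.measurable
  have hfatou : cost ρ g 0 L ≤ c := by
    refine le_trans ?_ hliminf
    have e1 : cost ρ g 0 L = ∫⁻ s, (Ioo 0 L).indicator (fun s => ρ (g s)) s := by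
      rw [cost_eq_Ioo, lintegral_indicator measurableSet_Ioo]
    have e2 : ∀ k, cost ρ (γ (φ k)) 0 (ℓ (φ k)) =
        ∫⁻ s, (Icc 0 (ℓ (φ k))).indicator (fun s => ρ (γ (φ k) s)) s := fun k => by
      rw [cost, lintegral_indicator measurableSet_Icc]
    rw [e1]
    simp only [e2]
    refine le_trans (lintegral_mono fun s => ?_) (lintegral_liminf_le fun k => ?_)
    · by_cases hs : s ∈ Ioo 0 L
      · rw [indicator_of_mem hs]
        have h3 : ρ (g s) ≤ liminf (fun k => ρ (γ (φ k) s)) atTop :=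
          ((lowerSemicontinuous_iff_le_liminf.1 hρ) (g s)).trans
            (liminf_le_liminf_of_le (hgφ s))
        refine h3.trans (liminf_le_liminf ?_)
        filter_upwards [hℓφ.eventually_const_lt hs.2] with k hk
        rw [indicator_of_mem (show s ∈ Icc 0 (ℓ (φ k)) from ⟨hs.1.le, hk.le⟩)]
      · rw [indicator_of_notMem hs]
        exact zero_le
    · exact (hρm.comp (hγ (φ k)).lip.continuous.measurable).indicator measurableSet_Icc
  have hae : ∀ᵐ s ∂(volume.restrict (Icc 0 L)), ρ (g s) < ⊤ :=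
    ae_lt_top (hρm.comp hg.continuous.measurable)
      (ne_top_of_le_ne_top hc hfatou)
  have hnotE : ∀ a b, 0 ≤ a → a < b → b ≤ L → ∃ t ∈ Ioo a b, g t ∉ E := by
    intro a b ha hab hb
    by_contra hcon
    push Not at hcon
    rw [ae_restrict_iff' measurableSet_Icc] at hae
    have h1 : volume (Ioo a b) = 0 := by
      refine measure_mono_null (fun t ht => ?_) (ae_iff.1 hae)
      have h2 : g t ∈ K ∩ E := ⟨hgK t, hcon t ht⟩
      simp only [Set.mem_ofPred_eq, Classical.not_imp, not_lt, top_le_iff]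
      exact ⟨⟨ha.trans ht.1.le, ht.2.le.trans hb⟩, hρE _ h2⟩
    rw [Real.volume_Ioo] at h1
    have := ENNReal.ofReal_eq_zero.1 h1
    linarith
  refine ⟨g, L, hg, hL.1, ?_, ?_, fun s _ => hgK s, ?_⟩
  · refine tendsto_nhds_unique (hgφ 0) ?_
    refine (hx.comp hφ.tendsto_atTop).congr fun k => ?_
    exact ((hγ (φ k)).left).symm
  · refine tendsto_nhds_unique (f := fun k => γ (φ k) (ℓ (φ k))) (l := atTop) ?_ ?_
    · rw [tendsto_iff_dist_tendsto_zero]
      have h1 : Tendsto (fun k => |ℓ (φ k) - L| + dist (γ (φ k) L) (g L)) atTop (𝓝 (0 + 0)) := by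
        refine Tendsto.add ?_ ?_
        · have := (hℓφ.sub_const L).abs
          simpa using this
        · exact tendsto_iff_dist_tendsto_zero.1 (hgφ L)
      rw [add_zero] at h1
      refine squeeze_zero (fun _ => dist_nonneg) (fun k => ?_) h1
      refine (dist_triangle _ (γ (φ k) L) _).trans ?_
      gcongr
      have := (hγ (φ k)).lip.dist_le_mul (ℓ (φ k)) L
      rwa [NNReal.coe_one, one_mul, Real.dist_eq] at this
    · refine (hy.comp hφ.tendsto_atTop).congr fun k => ?_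
      exact ((hγ (φ k)).right).symm
  · intro s₁ s₂ h0 h12 h2L hB
    rcases h12.eq_or_lt with h12 | h12
    · rw [h12, dist'_self (hgK _)]
      exact zero_le
    have hmain := splice (E := E) (γ := fun k s => γ (φ k) (s + s₁))
      (ℓ := fun k => min (ℓ (φ k)) s₂ - s₁) (g := fun s => g (s + s₁)) (L := s₂ - s₁)
      hK.isClosed hKc hη hρη ?_ ?_ ?_ (by linarith) ?_ ?_
    · simp only [zero_add, sub_add_cancel] at hmain
      refine hmain.trans (le_trans (liminf_le_liminf ?_) hliminf)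
      filter_upwards [hℓφ.eventually_const_lt (h12.trans_le h2L)] with k hk
      rw [cost_sub']
      exact cost_mono h0 (min_le_left _ _)
    · filter_upwards [hℓφ.eventually_const_lt (h12.trans_le h2L)] with k hk
      have := (hγ (φ k)).sub h0 (le_min hk.le h12.le) (min_le_left _ _)
      simpa using this
    · have := (hℓφ.min (tendsto_const_nhds (x := s₂))).sub_const s₁
      rwa [min_eq_right h2L] at this
    · intro s _
      exact hgφ _
    · exact (hg.continuous.comp (by fun_prop)).continuousOn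
    · intro a b ha hab hb
      obtain ⟨t, ht, htE⟩ := hnotE (a + s₁) (b + s₁) (by linarith) (by linarith) (by linarith)
      refine ⟨t - s₁, ⟨by linarith [ht.1], by linarith [ht.2]⟩, ?_⟩
      simp only [sub_add_cancel]
      exact hB t ⟨by linarith [ht.1], by linarith [ht.2]⟩ htE

/-- lower semicontinuity of `dist'` -/
theorem dist'_lsc (hK : IsCompact K) (hKc : Convex ℝ K) (hρ : LowerSemicontinuous ρ)
    {η : ℝ} (hη : 0 < η) (hρη : ∀ z ∈ K, ENNReal.ofReal η ≤ ρ z) (hρE : ∀ z ∈ K ∩ E, ρ z = ⊤)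
    (hB : ∀ z ∈ K, z ∉ E → LocB K E ρ z) {c : ℝ≥0∞} (hc : c ≠ ⊤) :
    IsClosed {p : K × K | dist' K E ρ p.1 p.2 ≤ c} := by
  refine IsSeqClosed.isClosed ?_
  intro p q hp hpq
  have h1 : Tendsto (fun k => ((p k).1 : Eu n)) atTop (𝓝 (q.1 : Eu n)) :=
    (continuous_subtype_val.tendsto _).comp ((continuous_fst.tendsto q).comp hpq)
  have h2 : Tendsto (fun k => ((p k).2 : Eu n)) atTop (𝓝 (q.2 : Eu n)) :=
    (continuous_subtype_val.tendsto _).comp ((continuous_snd.tendsto q).comp hpq)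
  obtain ⟨g, L, -, hL, hg0, hgL, hgK, hmain⟩ := limit_curve hK hKc hρ hη hρη hρE hc h1 h2 hp
  have := hmain 0 L le_rfl hL le_rfl fun t ht htE => hB _ (hgK t ⟨ht.1.le, ht.2.le⟩) htE
  rwa [hg0, hgL] at this

end Pool.Agent.TH221
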