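import Pool.Agent.TH221.Dist

/-!
Infinite concatenation and the countable triangle inequality.
-/

set_option autoImplicit false

open MeasureTheory Set Filter Topology Metric
open scoped ENNReal NNReal

namespace Pool.Agent.TH221

variable {n : ℕ} {K E : Set (Eu n)} {ρ : Eu n → ℝ≥0∞}

/-- finite concatenations -/
noncomputable def fcat (x : ℕ → Eu n) (σ : ℕ → ℝ → Eu n) (m : ℕ → ℝ) : ℕ → ℝ → Eu n
  | 0 => fun _ => x 0
  | k + 1 => cat (fcat x σ m k) (∑ i ∈ Finset.range k, m i) (σ k)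

variable {x : ℕ → Eu n} {σ : ℕ → ℝ → Eu n} {m : ℕ → ℝ}

lemma fcat_crv (h : ∀ j, Crv K E (x j) (x (j+1)) (σ j) (m j)) (k : ℕ) :
    Crv K E (x 0) (x k) (fcat x σ m k) (∑ i ∈ Finset.range k, m i) := by
  induction k with
  | zero => simpa [fcat] using Crv.refl (h 0).left_mem
  | succ k ih =>
    rw [Finset.sum_range_succ]
    exact ih.trans (h k)

lemma fcat_cost (h : ∀ j, Crv K E (x j) (x (j+1)) (σ j) (m j)) (k : ℕ) :
    cost ρ (fcat x σ m k) 0 (∑ i ∈ Finset.range k, m i) =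
      ∑ i ∈ Finset.range k, cost ρ (σ i) 0 (m i) := by
  induction k with
  | zero => simp [cost_self]
  | succ k ih =>
    rw [Finset.sum_range_succ, Finset.sum_range_succ, ← ih]
    exact (fcat_crv h k).cost_trans (h k)

lemma sum_mono_of_crv (h : ∀ j, Crv K E (x j) (x (j+1)) (σ j) (m j)) {k j : ℕ} (hkj : k ≤ j) :
    ∑ i ∈ Finset.range k, m i ≤ ∑ i ∈ Finset.range j, m i :=
  Finset.sum_le_sum_of_subset_of_nonneg (Finset.range_mono hkj) fun i _ _ => (h i).nonneg

lemma fcat_stable (h : ∀ j, Crv K E (x j) (x (j+1)) (σ j) (m j)) {k j : ℕ} (hkj : k ≤ j) {s : ℝ}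
    (hs : s ≤ ∑ i ∈ Finset.range k, m i) : fcat x σ m j s = fcat x σ m k s := by
  induction j, hkj using Nat.le_induction with
  | base => rfl
  | succ j hkj ih =>
    rw [← ih]
    exact cat_of_le (hs.trans (sum_mono_of_crv h hkj))

open Classical in
/-- infinite concatenation -/
noncomputable def icat (x : ℕ → Eu n) (σ : ℕ → ℝ → Eu n) (m : ℕ → ℝ) (x' : Eu n) : ℝ → Eu n :=
  fun s => if h : ∃ k, s ≤ ∑ i ∈ Finset.range k, m i then fcat x σ m (Nat.find h) s else x'

lemma icat_of_le {x' : Eu n} (h : ∀ j, Crv K E (x j) (x (j+1)) (σ j) (m j)) {k : ℕ} {s : ℝ}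
    (hs : s ≤ ∑ i ∈ Finset.range k, m i) : icat x σ m x' s = fcat x σ m k s := by
  have h1 : ∃ k, s ≤ ∑ i ∈ Finset.range k, m i := ⟨k, hs⟩
  rw [icat, dif_pos h1]
  exact (fcat_stable h (Nat.find_min' h1 hs) (Nat.find_spec h1)).symm

lemma icat_of_not {x' : Eu n} {s : ℝ} (hs : ∀ k, ∑ i ∈ Finset.range k, m i < s) :
    icat x σ m x' s = x' := by
  have h1 : ¬ ∃ k, s ≤ ∑ i ∈ Finset.range k, m i := by
    push Not; exact hs
  rw [icat, dif_neg h1]

theorem crv_icat {x' : Eu n} (hK : IsClosed K)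
    (h : ∀ j, Crv K E (x j) (x (j+1)) (σ j) (m j)) (hm : Summable m)
    (hx : Tendsto x atTop (𝓝 x')) :
    Crv K E (x 0) x' (icat x σ m x') (∑' i, m i) ∧
      cost ρ (icat x σ m x') 0 (∑' i, m i) ≤ ∑' j, cost ρ (σ j) 0 (m j) := by
  set M : ℕ → ℝ := fun k => ∑ i ∈ Finset.range k, m i with hM
  have hm0 : ∀ i, 0 ≤ m i := fun i => (h i).nonneg
  have hMle : ∀ k, M k ≤ ∑' i, m i := fun k => hm.sum_le_tsum _ fun i _ => hm0 i
  have hMt : Tendsto M atTop (𝓝 (∑' i, m i)) := hm.hasSum.tendsto_sum_nat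
  have hx'K : x' ∈ K := hK.mem_of_tendsto hx (Eventually.of_forall fun j => (h j).left_mem)
  have hMmono : ∀ {k j : ℕ}, k ≤ j → M k ≤ M j := fun hkj => sum_mono_of_crv h hkj
  have hend : icat x σ m x' (∑' i, m i) = x' := by
    by_cases hk : ∃ k, ∑' i, m i ≤ M k
    · obtain ⟨k, hk⟩ := hk
      have h1 : ∀ j, k ≤ j → icat x σ m x' (∑' i, m i) = x j := by
        intro j hj
        have h2 : ∑' i, m i ≤ M j := hk.trans (hMmono hj)
        have h3 : M j = ∑' i, m i := le_antisymm (hMle j) h2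
        rw [icat_of_le h h2, ← h3]
        exact (fcat_crv h j).right
      refine tendsto_nhds_unique (f := x) (l := atTop) ?_ hx
      refine tendsto_const_nhds.congr' ?_
      filter_upwards [eventually_ge_atTop k] with j hj
      exact h1 j hj
    · push Not at hk
      exact icat_of_not hk
  have hlip : LipschitzWith 1 (icat x σ m x') := by
    refine lip_of_le fun s t hst => ?_
    by_cases ht : ∃ k, t ≤ M k
    · obtain ⟨k, hk⟩ := ht
      rw [icat_of_le h (hst.trans hk), icat_of_le h hk]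
      exact dist_le_of_lip (fcat_crv h k).lip hst
    · push Not at ht
      rw [icat_of_not ht]
      have htM : ∑' i, m i ≤ t := le_of_tendsto' hMt fun k => (ht k).le
      by_cases hs : ∃ k, s ≤ M k
      · obtain ⟨k, hk⟩ := hs
        have h1 : ∀ᶠ j in atTop, dist (icat x σ m x' s) (x j) ≤ t - s := by
          filter_upwards [eventually_ge_atTop k] with j hj
          rw [icat_of_le h (hk.trans (hMmono hj)), ← (fcat_crv h j).right]
          refine (dist_le_of_lip (fcat_crv h j).lip (hk.trans (hMmono hj))).trans ?_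
          have := hMle j
          simp only [hM] at this
          linarith
        exact le_of_tendsto (tendsto_const_nhds.dist hx) h1
      · push Not at hs
        rw [icat_of_not hs, dist_self]
        linarith
  refine ⟨⟨hlip, tsum_nonneg hm0, ?_, hend, ?_, ?_⟩, ?_⟩
  · rw [icat_of_le (k := 0) h (by simp)]
    rfl
  · intro s hs
    by_cases hk : ∃ k, s ≤ M k
    · obtain ⟨k, hk⟩ := hk
      rw [icat_of_le h hk]
      exact (fcat_crv h k).mem s ⟨hs.1, hk⟩
    · push Not at hk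
      rw [icat_of_not hk]
      exact hx'K
  · have hc : (({x'} : Set (Eu n)) ∪ ⋃ k, (fcat x σ m k '' Icc 0 (M k) ∩ E)).Countable :=
      (countable_singleton _).union (countable_iUnion fun k => (fcat_crv h k).cnt)
    refine hc.mono ?_
    rintro _ ⟨⟨s, hs, rfl⟩, hE⟩
    by_cases hk : ∃ k, s ≤ M k
    · obtain ⟨k, hk⟩ := hk
      rw [icat_of_le h hk] at hE ⊢
      exact Or.inr (mem_iUnion.2 ⟨k, ⟨s, ⟨hs.1, hk⟩, rfl⟩, hE⟩)
    · push Not at hk
      rw [icat_of_not hk]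
      exact Or.inl rfl
  · have hsub : Ioo 0 (∑' i, m i) ⊆ ⋃ k, Icc 0 (M k) := by
      intro s hs
      obtain ⟨k, hk⟩ := (hMt.eventually_const_lt hs.2).exists
      exact mem_iUnion.2 ⟨k, hs.1.le, hk.le⟩
    rw [cost_eq_Ioo]
    refine (lintegral_mono_set hsub).trans ?_
    have hmono : Monotone fun k => Icc 0 (M k) := fun k j hkj => Icc_subset_Icc_right (hMmono hkj)
    rw [setLIntegral_iUnion_of_directed _ hmono.directed_le]
    refine iSup_le fun k => ?_
    have h1 : ∫⁻ s in Icc 0 (M k), ρ (icat x σ m x' s) = cost ρ (fcat x σ m k) 0 (M k) :=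
      cost_congr fun s hs => icat_of_le h hs.2
    rw [h1, fcat_cost h]
    exact ENNReal.sum_le_tsum _

/-- if the density is at least `η`, the cost controls the length -/
lemma Crv.length_le {η : ℝ} (hρ : ∀ z ∈ K, ENNReal.ofReal η ≤ ρ z) {a b : Eu n} {γ : ℝ → Eu n}
    {ℓ : ℝ} (h : Crv K E a b γ ℓ) (hη : 0 ≤ η) : ENNReal.ofReal (η * ℓ) ≤ cost ρ γ 0 ℓ := by
  have h1 : ∫⁻ _s in Icc (0:ℝ) ℓ, ENNReal.ofReal η ≤ cost ρ γ 0 ℓ :=
    setLIntegral_mono' measurableSet_Icc fun s hs => hρ _ (h.mem s hs)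
  rw [setLIntegral_const, Real.volume_Icc, sub_zero, ← ENNReal.ofReal_mul hη] at h1
  exact h1

theorem dist'_countable (hK : IsClosed K) {η : ℝ} (hη : 0 < η)
    (hρ : ∀ z ∈ K, ENNReal.ofReal η ≤ ρ z) {x' : Eu n} (hx : Tendsto x atTop (𝓝 x')) :
    dist' K E ρ (x 0) x' ≤ ∑' j, dist' K E ρ (x j) (x (j+1)) := by
  by_cases htop : ∑' j, dist' K E ρ (x j) (x (j+1)) = ⊤
  · rw [htop]; exact le_top
  refine ENNReal.le_of_forall_pos_le_add fun ε hε _ => ?_
  obtain ⟨ε', hε', hsum⟩ := ENNReal.exists_pos_sum_of_countable' (ε := (ε : ℝ≥0∞))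
    (by simpa using hε.ne') ℕ
  have hfin : ∀ j, dist' K E ρ (x j) (x (j+1)) ≠ ⊤ := fun j => ENNReal.ne_top_of_tsum_ne_top htop j
  have hex : ∀ j, ∃ γ ℓ, Crv K E (x j) (x (j+1)) γ ℓ ∧
      cost ρ γ 0 ℓ < dist' K E ρ (x j) (x (j+1)) + ε' j :=
    fun j => exists_crv_of_lt (ENNReal.lt_add_right (hfin j) (hε' j).ne')
  choose σ m hσ hσc using hex
  have htot : ∑' j, cost ρ (σ j) 0 (m j) ≤ ∑' j, dist' K E ρ (x j) (x (j+1)) + ε := by
    calc _ ≤ ∑' j, (dist' K E ρ (x j) (x (j+1)) + ε' j) :=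
          ENNReal.tsum_le_tsum fun j => (hσc j).le
      _ = ∑' j, dist' K E ρ (x j) (x (j+1)) + ∑' j, ε' j := ENNReal.tsum_add
      _ ≤ _ := by gcongr
  have htot' : ∑' j, cost ρ (σ j) 0 (m j) ≠ ⊤ :=
    ne_top_of_le_ne_top (by finiteness) htot
  have hm : Summable m := by
    have h1 : ∑' j, ENNReal.ofReal (η * m j) ≠ ⊤ :=
      ne_top_of_le_ne_top htot' (ENNReal.tsum_le_tsum fun j => (hσ j).length_le hρ hη.le)
    have h2 := ENNReal.summable_toReal h1
    have h3 : Summable fun j => η * m j := by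
      refine h2.congr fun j => ?_
      rw [ENNReal.toReal_ofReal (mul_nonneg hη.le (hσ j).nonneg)]
    exact (summable_mul_left_iff hη.ne').1 h3
  obtain ⟨h1, h2⟩ := crv_icat (ρ := ρ) hK hσ hm hx
  exact (dist'_le h1).trans (h2.trans htot)

end Pool.Agent.TH221
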