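import Mathlib

/-!
Internal notions for the equivalence removable for continuous `W^{1,n}` functions iff CNED.
-/

set_option autoImplicit false

open MeasureTheory Set Filter Topology Metric
open scoped ENNReal NNReal ContDiff

namespace Pool.Agent.TH221

/-- Euclidean `n`-space -/
abbrev Eu (n : ℕ) := EuclideanSpace ℝ (Fin n)

variable {n : ℕ}

/-- time integral of `ρ` along `γ` over `[a, b]` -/
noncomputable def cost (ρ : Eu n → ℝ≥0∞) (γ : ℝ → Eu n) (a b : ℝ) : ℝ≥0∞ :=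
  ∫⁻ s in Icc a b, ρ (γ s)

/-- `γ` restricted to `[0, ℓ]` is a `1`-Lipschitz curve in `K` from `x` to `y` which meets `E` in
at most countably many points -/
structure Crv (K E : Set (Eu n)) (x y : Eu n) (γ : ℝ → Eu n) (ℓ : ℝ) : Prop where
  lip : LipschitzWith 1 γ
  nonneg : 0 ≤ ℓ
  left : γ 0 = x
  right : γ ℓ = y
  mem : ∀ s ∈ Icc (0:ℝ) ℓ, γ s ∈ K
  cnt : (γ '' Icc 0 ℓ ∩ E).Countable

/-- infimum of the costs of the curves in `K` from `x` to `y` which meet `E` in at most countably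
many points -/
noncomputable def dist' (K E : Set (Eu n)) (ρ : Eu n → ℝ≥0∞) (x y : Eu n) : ℝ≥0∞ :=
  ⨅ (γ : ℝ → Eu n) (ℓ : ℝ) (_ : Crv K E x y γ ℓ), cost ρ γ 0 ℓ

/-- `G` is the weak gradient of `w` on the open set `Ω` -/
def WeakGrad (Ω : Set (Eu n)) (w : Eu n → ℝ) (G : Eu n → Eu n →L[ℝ] ℝ) : Prop :=
  ∀ φ : Eu n → ℝ, ContDiff ℝ ∞ φ → HasCompactSupport φ → tsupport φ ⊆ Ω → ∀ v : Eu n,
    ∫ x, w x * fderiv ℝ φ x v = - ∫ x, φ x * G x v

/-- `w ∈ W^{1,n}(Ω)` -/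
def InW (Ω : Set (Eu n)) (w : Eu n → ℝ) : Prop :=
  MemLp w n (volume.restrict Ω) ∧ ∃ G : Eu n → Eu n →L[ℝ] ℝ,
    MemLp G n (volume.restrict Ω) ∧ WeakGrad Ω w G

/-- length integral of `ρ` over the rectifiable curve `c : [0, 1] → ℝⁿ`, by means of the
parametrization of `c` by arc length -/
noncomputable def lineInt (ρ : Eu n → ℝ≥0∞) (c : ℝ → Eu n) : ℝ≥0∞ :=
  ∫⁻ s in Icc 0 (eVariationOn c (Icc 0 1)).toReal, ρ (naturalParameterization c (Icc 0 1) 0 s)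

end Pool.Agent.TH221
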