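import Pool.Agent.TH221.Defs

/-!
Basic properties of costs, curves and of the infimal cost `dist'`.
-/

set_option autoImplicit false

open MeasureTheory Set Filter Topology Metric
open scoped ENNReal NNReal

namespace Pool.Agent.TH221

variable {n : ℕ} {K E : Set (Eu n)} {ρ : Eu n → ℝ≥0∞}

lemma cost_eq_Ioc (ρ : Eu n → ℝ≥0∞) (γ : ℝ → Eu n) (a b : ℝ) :
    cost ρ γ a b = ∫⁻ s in Ioc a b, ρ (γ s) := by
  unfold cost
  exact setLIntegral_congr Ioc_ae_eq_Icc.symm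

lemma cost_eq_Ioo (ρ : Eu n → ℝ≥0∞) (γ : ℝ → Eu n) (a b : ℝ) :
    cost ρ γ a b = ∫⁻ s in Ioo a b, ρ (γ s) := by
  unfold cost
  exact setLIntegral_congr Ioo_ae_eq_Icc.symm

lemma cost_self (ρ : Eu n → ℝ≥0∞) (γ : ℝ → Eu n) (a : ℝ) : cost ρ γ a a = 0 := by
  simp [cost]

lemma cost_add {γ : ℝ → Eu n} {a b c : ℝ} (hab : a ≤ b) (hbc : b ≤ c) :
    cost ρ γ a b + cost ρ γ b c = cost ρ γ a c := by
  rw [cost_eq_Ioc, cost_eq_Ioc, cost_eq_Ioc, ← Ioc_union_Ioc_eq_Ioc hab hbc]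
  rw [lintegral_union measurableSet_Ioc]
  rw [Set.disjoint_left]
  rintro x ⟨_, h1⟩ ⟨h2, _⟩
  linarith

lemma cost_mono {γ : ℝ → Eu n} {a b c d : ℝ} (h1 : c ≤ a) (h2 : b ≤ d) :
    cost ρ γ a b ≤ cost ρ γ c d :=
  lintegral_mono_set (Icc_subset_Icc h1 h2)

lemma cost_congr {γ σ : ℝ → Eu n} {a b : ℝ} (h : ∀ s ∈ Icc a b, γ s = σ s) :
    cost ρ γ a b = cost ρ σ a b := by
  unfold cost
  refine setLIntegral_congr_fun measurableSet_Icc ?_
  intro s hs
  simp only [h s hs]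

lemma cost_congr_Ioc {γ σ : ℝ → Eu n} {a b : ℝ} (h : ∀ s ∈ Ioc a b, γ s = σ s) :
    cost ρ γ a b = cost ρ σ a b := by
  rw [cost_eq_Ioc, cost_eq_Ioc]
  refine setLIntegral_congr_fun measurableSet_Ioc ?_
  intro s hs
  simp only [h s hs]

lemma cost_shift (γ : ℝ → Eu n) (a b t : ℝ) :
    cost ρ (fun s => γ (s + t)) a b = cost ρ γ (a + t) (b + t) := by
  unfold cost
  have h := (measurePreserving_add_right (volume : Measure ℝ) t).setLIntegral_comp_preimage_emb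
    (measurableEmbedding_addRight t) (fun s => ρ (γ s)) (Icc (a + t) (b + t))
  rw [← h]
  congr 2
  ext s
  simp

lemma cost_rev (γ : ℝ → Eu n) (a b c : ℝ) :
    cost ρ (fun s => γ (c - s)) a b = cost ρ γ (c - b) (c - a) := by
  unfold cost
  have h := (Measure.measurePreserving_sub_left (volume : Measure ℝ) c).setLIntegral_comp_preimage_emb
    (Homeomorph.subLeft c).measurableEmbedding (fun s => ρ (γ s)) (Icc (c - b) (c - a))
  rw [← h]
  congr 2
  ext s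
  simp only [mem_Icc, mem_preimage, Homeomorph.coe_subLeft]
  constructor <;> rintro ⟨h1, h2⟩ <;> constructor <;> linarith

/-- concatenation at time `a` -/
noncomputable def cat (γ : ℝ → Eu n) (a : ℝ) (σ : ℝ → Eu n) : ℝ → Eu n :=
  fun s => if s ≤ a then γ s else σ (s - a)

lemma cat_of_le {γ σ : ℝ → Eu n} {a s : ℝ} (h : s ≤ a) : cat γ a σ s = γ s := by
  simp [cat, h]

lemma cat_of_gt {γ σ : ℝ → Eu n} {a s : ℝ} (h : a < s) : cat γ a σ s = σ (s - a) := by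
  simp [cat, not_le.2 h]

lemma cat_of_ge {γ σ : ℝ → Eu n} {a s : ℝ} (h0 : γ a = σ 0) (h : a ≤ s) :
    cat γ a σ s = σ (s - a) := by
  rcases h.eq_or_lt with h | h
  · subst h; rw [cat_of_le le_rfl, sub_self, h0]
  · exact cat_of_gt h

lemma dist_le_of_lip {γ : ℝ → Eu n} (hγ : LipschitzWith 1 γ) {s t : ℝ} (h : s ≤ t) :
    dist (γ s) (γ t) ≤ t - s := by
  have := hγ.dist_le_mul s t
  rw [Real.dist_eq, abs_sub_comm, abs_of_nonneg (by linarith)] at this
  simpa using this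

lemma lip_of_le {γ : ℝ → Eu n} (h : ∀ s t, s ≤ t → dist (γ s) (γ t) ≤ t - s) :
    LipschitzWith 1 γ := by
  refine LipschitzWith.of_dist_le_mul fun s t => ?_
  rcases le_total s t with hst | hst
  · rw [Real.dist_eq, abs_sub_comm, abs_of_nonneg (by linarith)]
    simpa using h s t hst
  · rw [Real.dist_eq, abs_of_nonneg (by linarith), dist_comm]
    simpa using h t s hst

lemma lip_cat {γ σ : ℝ → Eu n} {a : ℝ} (hγ : LipschitzWith 1 γ) (hσ : LipschitzWith 1 σ)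
    (h0 : γ a = σ 0) : LipschitzWith 1 (cat γ a σ) := by
  refine lip_of_le fun s t hst => ?_
  rcases le_total t a with ht | ht
  · rw [cat_of_le (hst.trans ht), cat_of_le ht]
    exact dist_le_of_lip hγ hst
  · rcases le_total s a with hs | hs
    · rw [cat_of_le hs, cat_of_ge h0 ht]
      calc dist (γ s) (σ (t - a)) ≤ dist (γ s) (γ a) + dist (γ a) (σ (t - a)) :=
            dist_triangle _ _ _
        _ ≤ (a - s) + (t - a - 0) := by
            refine add_le_add (dist_le_of_lip hγ hs) ?_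
            rw [h0]
            exact dist_le_of_lip hσ (by linarith)
        _ = t - s := by ring
    · rw [cat_of_ge h0 hs, cat_of_ge h0 ht]
      calc _ ≤ (t - a) - (s - a) := dist_le_of_lip hσ (by linarith)
        _ = t - s := by ring

lemma Crv.refl {x : Eu n} (hx : x ∈ K) : Crv K E x x (fun _ => x) 0 where
  lip := LipschitzWith.const' _
  nonneg := le_rfl
  left := rfl
  right := rfl
  mem := fun _ _ => hx
  cnt := by
    refine Set.Countable.mono inter_subset_left ?_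
    refine (Set.countable_singleton x).mono ?_
    rintro _ ⟨s, _, rfl⟩
    rfl

lemma Crv.symm {x y : Eu n} {γ : ℝ → Eu n} {ℓ : ℝ} (h : Crv K E x y γ ℓ) :
    Crv K E y x (fun s => γ (ℓ - s)) ℓ where
  lip := lip_of_le fun s t hst => by
    rw [dist_comm]
    calc _ ≤ (ℓ - s) - (ℓ - t) := dist_le_of_lip h.lip (by linarith)
      _ = t - s := by ring
  nonneg := h.nonneg
  left := by simpa using h.right
  right := by simpa using h.left
  mem := fun s hs => h.mem _ ⟨by linarith [hs.2], by linarith [hs.1]⟩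
  cnt := by
    refine h.cnt.mono (inter_subset_inter_left _ ?_)
    rintro _ ⟨s, hs, rfl⟩
    exact ⟨ℓ - s, ⟨by linarith [hs.2], by linarith [hs.1]⟩, rfl⟩

lemma Crv.cost_symm {x y : Eu n} {γ : ℝ → Eu n} {ℓ : ℝ} (_h : Crv K E x y γ ℓ) :
    cost ρ (fun s => γ (ℓ - s)) 0 ℓ = cost ρ γ 0 ℓ := by
  rw [cost_rev]; simp

lemma Crv.trans {x y z : Eu n} {γ σ : ℝ → Eu n} {ℓ m : ℝ} (h : Crv K E x y γ ℓ)
    (h' : Crv K E y z σ m) : Crv K E x z (cat γ ℓ σ) (ℓ + m) where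
  lip := lip_cat h.lip h'.lip (h.right.trans h'.left.symm)
  nonneg := add_nonneg h.nonneg h'.nonneg
  left := by rw [cat_of_le h.nonneg, h.left]
  right := by
    rw [cat_of_ge (h.right.trans h'.left.symm) (by linarith [h'.nonneg])]
    simpa using h'.right
  mem := by
    intro s hs
    rcases le_total s ℓ with hsl | hsl
    · rw [cat_of_le hsl]; exact h.mem s ⟨hs.1, hsl⟩
    · rw [cat_of_ge (h.right.trans h'.left.symm) hsl]
      exact h'.mem _ ⟨by linarith, by linarith [hs.2]⟩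
  cnt := by
    refine (h.cnt.union h'.cnt).mono ?_
    rintro _ ⟨⟨s, hs, rfl⟩, hE⟩
    rcases le_total s ℓ with hsl | hsl
    · rw [cat_of_le hsl] at hE ⊢
      exact Or.inl ⟨⟨s, ⟨hs.1, hsl⟩, rfl⟩, hE⟩
    · rw [cat_of_ge (h.right.trans h'.left.symm) hsl] at hE ⊢
      exact Or.inr ⟨⟨s - ℓ, ⟨by linarith, by linarith [hs.2]⟩, rfl⟩, hE⟩

lemma Crv.cost_trans {x y z : Eu n} {γ σ : ℝ → Eu n} {ℓ m : ℝ} (h : Crv K E x y γ ℓ)
    (h' : Crv K E y z σ m) :
    cost ρ (cat γ ℓ σ) 0 (ℓ + m) = cost ρ γ 0 ℓ + cost ρ σ 0 m := by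
  rw [← cost_add (b := ℓ) h.nonneg (by linarith [h'.nonneg])]
  congr 1
  · exact cost_congr fun s hs => cat_of_le hs.2
  · rw [cost_congr (σ := fun s => σ (s + (-ℓ)))
      (fun s hs => cat_of_ge (h.right.trans h'.left.symm) hs.1), cost_shift]
    simp

lemma Crv.sub {x y : Eu n} {γ : ℝ → Eu n} {ℓ : ℝ} (h : Crv K E x y γ ℓ) {a b : ℝ}
    (ha : 0 ≤ a) (hab : a ≤ b) (hb : b ≤ ℓ) :
    Crv K E (γ a) (γ b) (fun s => γ (s + a)) (b - a) where
  lip := lip_of_le fun s t hst => by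
    calc _ ≤ (t + a) - (s + a) := dist_le_of_lip h.lip (by linarith)
      _ = t - s := by ring
  nonneg := by linarith
  left := by simp
  right := by simp
  mem := fun s hs => h.mem _ ⟨by linarith [hs.1], by linarith [hs.2]⟩
  cnt := by
    refine h.cnt.mono (inter_subset_inter_left _ ?_)
    rintro _ ⟨s, hs, rfl⟩
    exact ⟨s + a, ⟨by linarith [hs.1], by linarith [hs.2]⟩, rfl⟩

lemma cost_sub' {γ : ℝ → Eu n} {a b : ℝ} :
    cost ρ (fun s => γ (s + a)) 0 (b - a) = cost ρ γ a b := by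
  rw [cost_shift]; simp

lemma Crv.mono {K' E' : Set (Eu n)} {x y : Eu n} {γ : ℝ → Eu n} {ℓ : ℝ} (h : Crv K E x y γ ℓ)
    (hK : K ⊆ K') (hE : E' ⊆ E) : Crv K' E' x y γ ℓ where
  lip := h.lip
  nonneg := h.nonneg
  left := h.left
  right := h.right
  mem := fun s hs => hK (h.mem s hs)
  cnt := h.cnt.mono (inter_subset_inter_right _ hE)

lemma Crv.left_mem {x y : Eu n} {γ : ℝ → Eu n} {ℓ : ℝ} (h : Crv K E x y γ ℓ) : x ∈ K := by
  have := h.mem 0 ⟨le_rfl, h.nonneg⟩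
  rwa [h.left] at this

lemma Crv.right_mem {x y : Eu n} {γ : ℝ → Eu n} {ℓ : ℝ} (h : Crv K E x y γ ℓ) : y ∈ K := by
  have := h.mem ℓ ⟨h.nonneg, le_rfl⟩
  rwa [h.right] at this

lemma dist'_le {x y : Eu n} {γ : ℝ → Eu n} {ℓ : ℝ} (h : Crv K E x y γ ℓ) :
    dist' K E ρ x y ≤ cost ρ γ 0 ℓ :=
  iInf_le_of_le γ (iInf_le_of_le ℓ (iInf_le _ h))

lemma le_dist'_iff {x y : Eu n} {c : ℝ≥0∞} :
    c ≤ dist' K E ρ x y ↔ ∀ γ ℓ, Crv K E x y γ ℓ → c ≤ cost ρ γ 0 ℓ := by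
  simp [dist', le_iInf_iff]

lemma exists_crv_of_lt {x y : Eu n} {c : ℝ≥0∞} (h : dist' K E ρ x y < c) :
    ∃ γ ℓ, Crv K E x y γ ℓ ∧ cost ρ γ 0 ℓ < c := by
  by_contra hcon
  push Not at hcon
  exact absurd h (not_lt.2 (le_dist'_iff.2 hcon))

lemma dist'_self {x : Eu n} (hx : x ∈ K) : dist' K E ρ x x = 0 := by
  refine le_antisymm ((dist'_le (Crv.refl hx)).trans ?_) (zero_le)
  rw [cost_self]

lemma dist'_comm_le (x y : Eu n) : dist' K E ρ x y ≤ dist' K E ρ y x := by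
  refine le_dist'_iff.2 fun γ ℓ h => ?_
  rw [← h.cost_symm]
  exact dist'_le h.symm

lemma dist'_comm (x y : Eu n) : dist' K E ρ x y = dist' K E ρ y x :=
  le_antisymm (dist'_comm_le x y) (dist'_comm_le y x)

lemma dist'_triangle (x y z : Eu n) :
    dist' K E ρ x z ≤ dist' K E ρ x y + dist' K E ρ y z := by
  by_contra hcon
  push Not at hcon
  have h1 : dist' K E ρ x y ≠ ⊤ := by
    intro h; rw [h] at hcon; simp at hcon
  have h2 : dist' K E ρ y z ≠ ⊤ := by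
    intro h; rw [h] at hcon; simp at hcon
  obtain ⟨ε, hε, hlt⟩ : ∃ ε : ℝ≥0∞, 0 < ε ∧
      dist' K E ρ x y + dist' K E ρ y z + ε + ε < dist' K E ρ x z := by
    obtain ⟨c, hc1, hc2⟩ := ENNReal.lt_iff_exists_add_pos_lt.1 hcon
    refine ⟨(c : ℝ≥0∞) / 2, ENNReal.div_pos (by simpa using hc1.ne') (by simp), ?_⟩
    rw [add_assoc, ENNReal.add_halves]
    exact hc2
  obtain ⟨γ, ℓ, hγ, hγc⟩ := exists_crv_of_lt (ENNReal.lt_add_right h1 hε.ne')
  obtain ⟨σ, m, hσ, hσc⟩ := exists_crv_of_lt (ENNReal.lt_add_right h2 hε.ne')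
  have h3 := dist'_le (ρ := ρ) (hγ.trans hσ)
  rw [hγ.cost_trans hσ] at h3
  refine absurd (h3.trans (add_le_add hγc.le hσc.le)) (not_le.2 ?_)
  calc _ = dist' K E ρ x y + dist' K E ρ y z + ε + ε := by ring
    _ < _ := hlt

end Pool.Agent.TH221
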