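import Pool.Agent.TH221.Defs
import Pool.Agent.TH221.Norm
import Pool.Agent.Helper930.LipWD

/-!
Weak gradients.
-/

set_option autoImplicit false

open MeasureTheory Set Filter Topology Metric
open scoped ENNReal NNReal ContDiff

namespace Pool.Agent.TH221

variable {n : ℕ}

/-- a function which is Lipschitz near each point of a compact set is Lipschitz near
the compact set -/
lemma lip_near_compact {v : Eu n → ℝ} {S : Set (Eu n)}
    (hS : IsCompact S) (hloc : ∀ z ∈ S, ∃ r > 0, ∃ C : ℝ≥0, LipschitzOnWith C v (ball z r)) :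
    ∃ V, IsOpen V ∧ S ⊆ V ∧ ∃ C : ℝ≥0, LipschitzOnWith C v V := by
  choose! r hr C hC using hloc
  obtain ⟨t, htS, ht⟩ := hS.elim_nhds_subcover (fun z => ball z (r z / 2))
    (fun z hz => ball_mem_nhds z (half_pos (hr z hz)))
  refine ⟨⋃ z ∈ t, ball z (r z / 2), isOpen_biUnion fun z _ => isOpen_ball, ht, ?_⟩
  rcases t.eq_empty_or_nonempty with he | hne
  · refine ⟨0, ?_⟩
    rw [he]
    simp
  obtain ⟨z₀, hz₀, hmin⟩ := t.exists_min_image r hne
  set d : ℝ := r z₀ / 2 with hd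
  have hd0 : 0 < d := half_pos (hr z₀ (htS z₀ hz₀))
  set M : ℝ≥0 := t.sup C with hM
  set B : ℝ := ∑ z ∈ t, (|v z| + C z * r z) with hBdef
  have hterm : ∀ z ∈ t, 0 ≤ |v z| + C z * r z := fun z hz => by
    have := (hr z (htS z hz)).le
    positivity
  have hB0 : 0 ≤ B := Finset.sum_nonneg hterm
  have hB : ∀ z ∈ t, ∀ x ∈ ball z (r z), |v x| ≤ B := by
    intro z hz x hx
    have h1 := (hC z (htS z hz)).dist_le_mul x hx z (mem_ball_self (hr z (htS z hz)))
    have h2 : |v z| + C z * r z ≤ B := Finset.single_le_sum hterm hz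
    have h3 : (C z : ℝ) * dist x z ≤ C z * r z := by
      gcongr
      exact (mem_ball.1 hx).le
    rw [Real.dist_eq] at h1
    have h4 := abs_sub_abs_le_abs_sub (v x) (v z)
    linarith
  refine ⟨M + Real.toNNReal (2 * B / d), ?_⟩
  refine LipschitzOnWith.of_dist_le_mul fun x hx y hy => ?_
  obtain ⟨z, hz, hxz⟩ := mem_iUnion₂.1 hx
  obtain ⟨z', hz', hyz'⟩ := mem_iUnion₂.1 hy
  rw [NNReal.coe_add, add_mul, Real.coe_toNNReal _ (by positivity)]
  have hxz' : x ∈ ball z (r z) := ball_subset_ball (by linarith [hr z (htS z hz)]) hxz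
  have hyz'' : y ∈ ball z' (r z') := ball_subset_ball (by linarith [hr z' (htS z' hz')]) hyz'
  rcases lt_or_ge (dist x y) d with hxy | hxy
  · have hzr : d ≤ r z / 2 := by
      have := hmin z hz
      rw [hd]; linarith
    have hyz : y ∈ ball z (r z) := by
      rw [mem_ball] at hxz ⊢
      calc dist y z ≤ dist y x + dist x z := dist_triangle _ _ _
        _ < r z / 2 + r z / 2 := by
          rw [dist_comm y x]
          linarith
        _ = r z := by ring
    have h1 := (hC z (htS z hz)).dist_le_mul x hxz' y hyz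
    have h2 : (C z : ℝ) ≤ M := by exact_mod_cast Finset.le_sup hz
    have h3 : 0 ≤ 2 * B / d * dist x y := by positivity
    calc _ ≤ (C z : ℝ) * dist x y := h1
      _ ≤ M * dist x y := by gcongr
      _ ≤ _ := by linarith
  · have h1 : dist (v x) (v y) ≤ 2 * B := by
      rw [Real.dist_eq]
      calc |v x - v y| ≤ |v x| + |v y| := abs_sub _ _
        _ ≤ 2 * B := by linarith [hB z hz x hxz', hB z' hz' y hyz'']
    have h2 : 2 * B ≤ 2 * B / d * dist x y := by
      rw [div_mul_eq_mul_div, le_div_iff₀ hd0]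
      gcongr
    have h3 : 0 ≤ (M : ℝ) * dist x y := by positivity
    linarith

/-- `Lⁿ` functions are locally integrable -/
lemma locInt_of_memLp {F : Type*} [NormedAddCommGroup F] (hn : 1 ≤ n) {Ω : Set (Eu n)}
    (hΩ : IsOpen Ω) {G : Eu n → F} (hG : MemLp G n (volume.restrict Ω)) :
    LocallyIntegrableOn G Ω volume := by
  rw [locallyIntegrableOn_iff hΩ.isLocallyClosed]
  intro k hk hkc
  have h1 : MemLp G n (volume.restrict k) := hG.mono_measure (Measure.restrict_mono hk le_rfl)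
  have : IsFiniteMeasure (volume.restrict k : Measure (Eu n)) :=
    ⟨by rw [Measure.restrict_apply_univ]; exact hkc.measure_lt_top⟩
  exact h1.integrable (by exact_mod_cast hn)

lemma integrable_smul_of_locInt {F : Type*} [NormedAddCommGroup F] [NormedSpace ℝ F]
    {Ω : Set (Eu n)} (hΩ : IsOpen Ω) {G : Eu n → F} (hG : LocallyIntegrableOn G Ω volume)
    {φ : Eu n → ℝ} (hφ : Continuous φ) (hc : HasCompactSupport φ) (hs : tsupport φ ⊆ Ω) :
    Integrable (fun x => φ x • G x) volume := by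
  have h1 := hG
  rw [locallyIntegrableOn_iff hΩ.isLocallyClosed] at h1
  have h2 : IntegrableOn G (tsupport φ) volume := h1 _ hs hc
  have h3 : IntegrableOn (fun x => φ x • G x) (tsupport φ) volume :=
    h2.continuousOn_smul hφ.continuousOn hc
  refine (integrableOn_iff_integrable_of_support_subset ?_).1 h3
  intro x hx
  refine subset_tsupport φ fun h0 => hx ?_
  simp only [h0, zero_smul]

lemma integrable_smul_of_memLp {F : Type*} [NormedAddCommGroup F] [NormedSpace ℝ F] (hn : 1 ≤ n)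
    {Ω : Set (Eu n)} (hΩ : IsOpen Ω) {G : Eu n → F} (hG : MemLp G n (volume.restrict Ω))
    {φ : Eu n → ℝ} (hφ : Continuous φ) (hc : HasCompactSupport φ) (hs : tsupport φ ⊆ Ω) :
    Integrable (fun x => φ x • G x) volume :=
  integrable_smul_of_locInt hΩ (locInt_of_memLp hn hΩ hG) hφ hc hs

/-- uniqueness of the weak gradient -/
lemma WeakGrad.unique (hn : 1 ≤ n) {Ω : Set (Eu n)} (hΩ : IsOpen Ω) {w : Eu n → ℝ}
    {G₁ G₂ : Eu n → Eu n →L[ℝ] ℝ} (h₁ : WeakGrad Ω w G₁) (h₂ : WeakGrad Ω w G₂)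
    (m₁ : MemLp G₁ n (volume.restrict Ω)) (m₂ : MemLp G₂ n (volume.restrict Ω)) :
    ∀ᵐ x ∂(volume : Measure (Eu n)), x ∈ Ω → G₁ x = G₂ x := by
  have h := hΩ.ae_eq_zero_of_integral_contDiff_smul_eq_zero (μ := (volume : Measure (Eu n)))
    (f := fun x => G₁ x - G₂ x) (locInt_of_memLp hn hΩ (m₁.sub m₂)) ?_
  · filter_upwards [h] with x hx hxΩ
    exact sub_eq_zero.1 (hx hxΩ)
  · intro φ hφ hc hs
    have i1 := integrable_smul_of_memLp hn hΩ m₁ hφ.continuous hc hs
    have i2 := integrable_smul_of_memLp hn hΩ m₂ hφ.continuous hc hs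
    simp only [smul_sub]
    rw [integral_sub i1 i2, sub_eq_zero]
    ext v
    rw [ContinuousLinearMap.integral_apply i1, ContinuousLinearMap.integral_apply i2]
    have e1 := h₁ φ hφ hc hs v
    have e2 := h₂ φ hφ hc hs v
    simp only [smul_apply, smul_eq_mul]
    linarith

lemma WeakGrad.congr_ae {Ω : Set (Eu n)} {w : Eu n → ℝ}
    {G₁ G₂ : Eu n → Eu n →L[ℝ] ℝ} (h₁ : WeakGrad Ω w G₁)
    (h : ∀ᵐ x ∂(volume : Measure (Eu n)), x ∈ Ω → G₁ x = G₂ x) : WeakGrad Ω w G₂ := by
  intro φ hφ hc hs v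
  rw [h₁ φ hφ hc hs v]
  congr 1
  refine integral_congr_ae ?_
  filter_upwards [h] with x hx
  by_cases hxΩ : x ∈ Ω
  · rw [hx hxΩ]
  · have : φ x = 0 := image_eq_zero_of_notMem_tsupport fun h' => hxΩ (hs h')
    rw [this, zero_mul, zero_mul]

/-- weak gradient of locally Lipschitz functions -/
lemma weakGrad_of_lip {Ω : Set (Eu n)} (hΩ : IsOpen Ω) {v : Eu n → ℝ}
    (hloc : ∀ z ∈ Ω, ∃ r > 0, ∃ C : ℝ≥0, LipschitzOnWith C v (ball z r)) :
    WeakGrad Ω v (fderiv ℝ v) := by
  have h := Pool.Agent.Helper930.WD.weakDeriv_of_lip hΩ (f := v)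
    (fun S hS hSc => lip_near_compact hSc fun z hz => hloc z (hS hz))
  intro φ hφ hc hs w
  have := h.2.2 φ hφ hc hs w
  simp only [smul_eq_mul] at this
  rw [← this]
  congr 1
  funext x
  ring

/-- derivatives of test functions are test functions -/
lemma test_fderiv {φ : Eu n → ℝ} (hφ : ContDiff ℝ ∞ φ) (hc : HasCompactSupport φ) (v : Eu n) :
    Continuous (fun x => fderiv ℝ φ x v) ∧ HasCompactSupport (fun x => fderiv ℝ φ x v) ∧
      tsupport (fun x => fderiv ℝ φ x v) ⊆ tsupport φ := by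
  refine ⟨(hφ.continuous_fderiv (by norm_num)).clm_apply continuous_const, ?_, ?_⟩
  · exact (hc.fderiv (𝕜 := ℝ)).comp_left (g := fun A : Eu n →L[ℝ] ℝ => A v) (by simp)
  · refine closure_minimal ?_ (isClosed_tsupport _)
    intro x hx
    refine support_fderiv_subset ℝ (f := φ) ?_
    intro h0
    apply hx
    simp only [h0]
    simp

lemma integrable_mul_fderiv {Ω : Set (Eu n)} (hΩ : IsOpen Ω) {w : Eu n → ℝ}
    (hw : ContinuousOn w Ω) {φ : Eu n → ℝ} (hφ : ContDiff ℝ ∞ φ) (hc : HasCompactSupport φ)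
    (hs : tsupport φ ⊆ Ω) (v : Eu n) : Integrable (fun x => w x * fderiv ℝ φ x v) volume := by
  obtain ⟨h1, h2, h3⟩ := test_fderiv hφ hc v
  have := integrable_smul_of_locInt hΩ (hw.locallyIntegrableOn hΩ.measurableSet) h1 h2 (h3.trans hs)
  refine this.congr (Eventually.of_forall fun x => ?_)
  simp only [smul_eq_mul]
  ring

lemma integrable_mul_apply (hn : 1 ≤ n) {Ω : Set (Eu n)} (hΩ : IsOpen Ω)
    {G : Eu n → Eu n →L[ℝ] ℝ} (hG : MemLp G n (volume.restrict Ω)) {φ : Eu n → ℝ}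
    (hφ : Continuous φ) (hc : HasCompactSupport φ) (hs : tsupport φ ⊆ Ω) (v : Eu n) :
    Integrable (fun x => φ x * G x v) volume := by
  have h1 := integrable_smul_of_memLp hn hΩ hG hφ hc hs
  exact ((ContinuousLinearMap.apply ℝ ℝ v).integrable_comp h1)

/-- linear combinations -/
lemma WeakGrad.add_const_mul (hn : 1 ≤ n) {Ω : Set (Eu n)} (hΩ : IsOpen Ω) {w₁ w₂ : Eu n → ℝ}
    {G₁ G₂ : Eu n → Eu n →L[ℝ] ℝ} (h₁ : WeakGrad Ω w₁ G₁) (h₂ : WeakGrad Ω w₂ G₂)
    (c₁ : ContinuousOn w₁ Ω) (c₂ : ContinuousOn w₂ Ω)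
    (m₁ : MemLp G₁ n (volume.restrict Ω)) (m₂ : MemLp G₂ n (volume.restrict Ω)) (ε : ℝ) :
    WeakGrad Ω (fun x => w₁ x + ε * w₂ x) (fun x => G₁ x + ε • G₂ x) := by
  intro φ hφ hc hs v
  have e1 := h₁ φ hφ hc hs v
  have e2 := h₂ φ hφ hc hs v
  have i1 := integrable_mul_fderiv hΩ c₁ hφ hc hs v
  have i2 := integrable_mul_fderiv hΩ c₂ hφ hc hs v
  have j1 := integrable_mul_apply hn hΩ m₁ hφ.continuous hc hs v
  have j2 := integrable_mul_apply hn hΩ m₂ hφ.continuous hc hs v
  have k1 : ∫ x, (w₁ x + ε * w₂ x) * fderiv ℝ φ x v =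
      (∫ x, w₁ x * fderiv ℝ φ x v) + ε * ∫ x, w₂ x * fderiv ℝ φ x v := by
    rw [← integral_const_mul, ← integral_add i1 (i2.const_mul ε)]
    congr 1
    funext x
    ring
  have k2 : ∫ x, φ x * (G₁ x + ε • G₂ x) v =
      (∫ x, φ x * G₁ x v) + ε * ∫ x, φ x * G₂ x v := by
    rw [← integral_const_mul, ← integral_add j1 (j2.const_mul ε)]
    congr 1
    funext x
    simp only [add_apply, smul_apply, smul_eq_mul]
    ring
  rw [k1, k2, e1, e2]
  ring

/-- product with a smooth function -/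
lemma WeakGrad.smul (hn : 1 ≤ n) {Ω : Set (Eu n)} (hΩ : IsOpen Ω) {w : Eu n → ℝ}
    {G : Eu n → Eu n →L[ℝ] ℝ} (h : WeakGrad Ω w G) (c : ContinuousOn w Ω)
    (m : MemLp G n (volume.restrict Ω)) {χ : Eu n → ℝ} (hχ : ContDiff ℝ ∞ χ) :
    WeakGrad Ω (fun x => χ x * w x) (fun x => χ x • G x + w x • fderiv ℝ χ x) := by
  intro φ hφ hc hs v
  have hc' : HasCompactSupport (fun x => χ x * φ x) := hc.mul_left
  have hs' : tsupport (fun x => χ x * φ x) ⊆ Ω := by
    refine (closure_minimal ?_ (isClosed_tsupport φ)).trans hs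
    intro x hx
    exact subset_tsupport φ (right_ne_zero_of_mul hx)
  have e := h (fun x => χ x * φ x) (hχ.mul hφ) hc' hs' v
  have hd : ∀ x, fderiv ℝ (fun x => χ x * φ x) x v =
      χ x * fderiv ℝ φ x v + φ x * fderiv ℝ χ x v := by
    intro x
    have h1 : DifferentiableAt ℝ χ x := (hχ.differentiable (by norm_num)) x
    have h2 : DifferentiableAt ℝ φ x := (hφ.differentiable (by norm_num)) x
    have h3 : fderiv ℝ (fun x => χ x * φ x) x = χ x • fderiv ℝ φ x + φ x • fderiv ℝ χ x :=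
      (h1.hasFDerivAt.mul h2.hasFDerivAt).fderiv
    rw [h3]
    simp only [add_apply, smul_apply, smul_eq_mul]
  simp only [hd] at e
  have i1 : Integrable (fun x => χ x * w x * fderiv ℝ φ x v) volume :=
    integrable_mul_fderiv hΩ (hχ.continuous.continuousOn.mul c) hφ hc hs v
  have i2 : Integrable (fun x => φ x * (w x * fderiv ℝ χ x v)) volume := by
    have h1 : ContinuousOn (fun x => w x * fderiv ℝ χ x v) Ω :=
      c.mul ((hχ.continuous_fderiv (by norm_num)).clm_apply continuous_const).continuousOn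
    exact integrable_smul_of_locInt hΩ (h1.locallyIntegrableOn hΩ.measurableSet) hφ.continuous hc hs
  have i3 : Integrable (fun x => χ x * φ x * G x v) volume :=
    integrable_mul_apply hn hΩ m (hχ.mul hφ).continuous hc' hs' v
  have k1 : ∫ x, w x * (χ x * fderiv ℝ φ x v + φ x * fderiv ℝ χ x v) =
      (∫ x, χ x * w x * fderiv ℝ φ x v) + ∫ x, φ x * (w x * fderiv ℝ χ x v) := by
    rw [← integral_add i1 i2]
    congr 1
    funext x
    ring
  have k2 : ∫ x, φ x * (χ x • G x + w x • fderiv ℝ χ x) v =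
      (∫ x, χ x * φ x * G x v) + ∫ x, φ x * (w x * fderiv ℝ χ x v) := by
    rw [← integral_add i3 i2]
    congr 1
    funext x
    simp only [add_apply, smul_apply, smul_eq_mul]
    ring
  rw [k2]
  rw [k1] at e
  linarith

lemma eLpNorm_eq_nrm {F : Type*} [NormedAddCommGroup F] (hn : 1 ≤ n) (μ : Measure (Eu n))
    (G : Eu n → F) : eLpNorm G n μ = nrm μ (fun x => ENNReal.ofReal ‖G x‖) := by
  rw [eLpNorm_eq_lintegral_rpow_enorm_toReal (by simp; omega) (by simp)]
  simp only [ENNReal.toReal_natCast, ENNReal.rpow_natCast, nrm, ofReal_norm]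

end Pool.Agent.TH221
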