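import Pool.Agent.TH221.Potential
import Pool.Agent.TH221.Weak
import Pool.Agent.TH571.J143
import Pool.Agent.TH591.J144

/-!
Removable sets are CNED.
-/

set_option autoImplicit false

open MeasureTheory Set Filter Topology Metric
open scoped ENNReal NNReal ContDiff

namespace Pool.Agent.TH221

variable {n : ℕ}

/-- admissible functions, in terms of `1`-Lipschitz curves -/
def Adm (E F₁ F₂ : Set (Eu n)) (ρ : Eu n → ℝ≥0∞) : Prop :=
  Measurable ρ ∧ ∀ x ∈ F₁, ∀ y ∈ F₂, ∀ γ ℓ, Crv univ E x y γ ℓ → 1 ≤ cost ρ γ 0 ℓ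

lemma cost_const_mul {ρ : Eu n → ℝ≥0∞} (c : ℝ≥0∞) (hρ : Measurable ρ) {γ : ℝ → Eu n}
    (hγ : LipschitzWith 1 γ) (a b : ℝ) :
    cost (fun x => c * ρ x) γ a b = c * cost ρ γ a b := by
  exact lintegral_const_mul (μ := volume.restrict (Icc a b)) c
    (hρ.comp hγ.continuous.measurable)

lemma cost_add_fun {ρ σ : Eu n → ℝ≥0∞} (hρ : Measurable ρ) {γ : ℝ → Eu n}
    (hγ : LipschitzWith 1 γ) (a b : ℝ) :
    cost (fun x => ρ x + σ x) γ a b = cost ρ γ a b + cost σ γ a b := by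
  exact lintegral_add_left (μ := volume.restrict (Icc a b))
    (hρ.comp hγ.continuous.measurable) _

/-- one step: from a potential to a bound of the modulus -/
theorem modulus_le_of_potential (hn : 2 ≤ n) {E F₁ F₂ : Set (Eu n)} (hE : IsClosed E)
    (hE0 : volume E = 0) (hrem : ∀ u : Eu n → ℝ, Continuous u → InW Eᶜ u → InW univ u)
    {v : Eu n → ℝ} (hv : Continuous v) (hvc : HasCompactSupport v) {t : ℝ} (ht : 0 < t)
    (hv1 : ∀ x ∈ F₁, v x = t) (hv2 : ∀ x ∈ F₂, v x = 0)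
    (hloc : ∀ z ∉ E, ∃ r > 0, ∃ C, LipschitzOnWith C v (ball z r)) {N : ℝ≥0∞} (hN : N ≠ ⊤)
    (hnorm : nrm (volume.restrict Eᶜ) (fun x => ENNReal.ofReal ‖fderiv ℝ v x‖) ≤ N) :
    (⨅ (σ : Eu n → ℝ≥0∞) (_ : Adm ∅ F₁ F₂ σ), ∫⁻ x, σ x ^ n) ≤
      (ENNReal.ofReal t⁻¹ * N) ^ n := by
  have hn1 : 1 ≤ n := by omega
  have hW1 : WeakGrad Eᶜ v (fderiv ℝ v) := weakGrad_of_lip hE.isOpen_compl hloc
  have hM1 : MemLp (fderiv ℝ v) n (volume.restrict Eᶜ) := by
    refine ⟨(measurable_fderiv ℝ v).aestronglyMeasurable, ?_⟩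
    rw [eLpNorm_eq_nrm hn1]
    exact hnorm.trans_lt hN.lt_top
  have hInE : InW Eᶜ v := ⟨(hv.memLp_of_hasCompactSupport hvc).restrict _, _, hM1, hW1⟩
  obtain ⟨-, G₀, hG₀, hWG₀⟩ := hrem v hv hInE
  -- a Borel representative
  obtain ⟨G, hGm, hGG⟩ : ∃ G : Eu n → Eu n →L[ℝ] ℝ, Measurable G ∧
      ∀ᵐ x ∂(volume : Measure (Eu n)), x ∈ (univ : Set (Eu n)) → G₀ x = G x := by
    have h1 := hG₀.1
    rw [Measure.restrict_univ] at h1
    refine ⟨h1.mk G₀, h1.stronglyMeasurable_mk.measurable, ?_⟩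
    filter_upwards [h1.ae_eq_mk] with x hx _ using hx
  have hWG : WeakGrad univ v G := hWG₀.congr_ae hGG
  have hGLp : MemLp G n (volume.restrict univ) := by
    refine hG₀.ae_eq ?_
    rw [Measure.restrict_univ]
    filter_upwards [hGG] with x hx using hx (mem_univ x)
  -- comparison of the gradients
  have hWG' : WeakGrad Eᶜ v G := fun φ hφ hc _ w => hWG φ hφ hc (subset_univ _) w
  have hGLp' : MemLp G n (volume.restrict Eᶜ) :=
    hGLp.mono_measure (Measure.restrict_mono (subset_univ _) le_rfl)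
  have hae := hWG'.unique hn1 hE.isOpen_compl hW1 hGLp' hM1
  have hGnorm : nrm volume (fun x => ENNReal.ofReal ‖G x‖) ≤ N := by
    refine le_trans ?_ hnorm
    have h1 : (volume : Measure (Eu n)) = volume.restrict Eᶜ := by
      rw [Measure.restrict_eq_self_of_ae_mem]
      rw [ae_iff]
      simpa using hE0
    conv_lhs => rw [h1]
    refine nrm_mono_ae ?_
    rw [ae_restrict_iff' hE.isOpen_compl.measurableSet]
    filter_upwards [hae] with x hx hxE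
    rw [hx hxE]
  obtain ⟨H, hHm, hHn, hH⟩ := fuglede hn isOpen_univ hv.continuousOn hGm hGLp hWG
  set M : ℝ≥0∞ := ⨅ (σ : Eu n → ℝ≥0∞) (_ : Adm ∅ F₁ F₂ σ), ∫⁻ x, σ x ^ n with hM
  have hGm' : Measurable (fun x => ENNReal.ofReal ‖G x‖) := hGm.norm.ennreal_ofReal
  have hstep : ∀ δ : ℝ≥0∞, δ ≠ 0 → δ ≠ ⊤ →
      M ≤ (ENNReal.ofReal t⁻¹ * N + δ * nrm volume H) ^ n := by
    intro δ hδ0 hδ
    set σ : Eu n → ℝ≥0∞ := fun x => ENNReal.ofReal t⁻¹ * ENNReal.ofReal ‖G x‖ + δ * H x with hσ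
    have hσm : Measurable σ := (hGm'.const_mul _).add (hHm.const_mul _)
    have hadm : Adm ∅ F₁ F₂ σ := by
      refine ⟨hσm, fun x hx y hy γ ℓ hγ => ?_⟩
      rw [hσ, cost_add_fun (hGm'.const_mul _) hγ.lip, cost_const_mul _ hGm' hγ.lip,
        cost_const_mul _ hHm hγ.lip]
      by_cases htop : cost H γ 0 ℓ = ⊤
      · rw [htop, ENNReal.mul_top hδ0, add_top]
        exact le_top
      · have h1 := hH γ hγ.lip 0 ℓ hγ.nonneg (fun _ _ => mem_univ _) htop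
        rw [hγ.left, hγ.right, hv1 x hx, hv2 y hy, zero_sub, abs_neg, abs_of_pos ht] at h1
        calc (1 : ℝ≥0∞) = ENNReal.ofReal t⁻¹ * ENNReal.ofReal t := by
              rw [← ENNReal.ofReal_mul (by positivity), inv_mul_cancel₀ ht.ne', ENNReal.ofReal_one]
          _ ≤ ENNReal.ofReal t⁻¹ * cost (fun x => ENNReal.ofReal ‖G x‖) γ 0 ℓ := by
              gcongr
              exact h1
          _ ≤ _ := le_self_add
    refine (iInf₂_le σ hadm).trans ?_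
    rw [← nrm_le_iff hn1]
    calc nrm volume σ ≤ nrm volume (fun x => ENNReal.ofReal t⁻¹ * ENNReal.ofReal ‖G x‖) +
          nrm volume (fun x => δ * H x) :=
          nrm_add_le hn1 (hGm'.const_mul _).aemeasurable (hHm.const_mul _).aemeasurable
      _ = ENNReal.ofReal t⁻¹ * nrm volume (fun x => ENNReal.ofReal ‖G x‖) +
          δ * nrm volume H := by
          rw [nrm_const_mul hn1 ENNReal.ofReal_ne_top, nrm_const_mul hn1 hδ]
      _ ≤ _ := by gcongr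
  have hHtop : nrm volume H ≠ ⊤ := nrm_ne_top hHn
  have hlim : Tendsto (fun k : ℕ => (ENNReal.ofReal t⁻¹ * N +
      ((k : ℝ≥0∞) + 1)⁻¹ * nrm volume H) ^ n) atTop (𝓝 ((ENNReal.ofReal t⁻¹ * N + 0) ^ n)) := by
    have h1 : Tendsto (fun k : ℕ => ((k : ℝ≥0∞) + 1)⁻¹) atTop (𝓝 0) := by
      refine tendsto_of_tendsto_of_tendsto_of_le_of_le tendsto_const_nhds
        ENNReal.tendsto_inv_nat_nhds_zero (fun _ => zero_le) fun k => ?_
      exact ENNReal.inv_le_inv.2 le_self_add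
    have h2 : Tendsto (fun k : ℕ => ((k : ℝ≥0∞) + 1)⁻¹ * nrm volume H) atTop (𝓝 0) := by
      have := ENNReal.Tendsto.mul_const h1 (Or.inr hHtop)
      simpa using this
    have h3 := (Tendsto.const_add (ENNReal.ofReal t⁻¹ * N) h2).ennrpow_const (n : ℝ)
    simpa only [ENNReal.rpow_natCast] using h3
  rw [add_zero] at hlim
  exact ge_of_tendsto' hlim fun k => hstep _ (by simp) (by simp)

/-- removable sets: the full modulus is bounded by the energy of every function which is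
admissible for the curves meeting the set countably often -/
theorem removable_imp (hn : 2 ≤ n) {E F₁ F₂ : Set (Eu n)} (hE : IsClosed E)
    (hrem : ∀ u : Eu n → ℝ, Continuous u → InW Eᶜ u → InW univ u)
    (hF₁ : IsCompact F₁) (hF₂ : IsCompact F₂) (hne : F₁.Nonempty) {ρ : Eu n → ℝ≥0∞}
    (hρ : Adm E F₁ F₂ ρ) :
    (⨅ (σ : Eu n → ℝ≥0∞) (_ : Adm ∅ F₁ F₂ σ), ∫⁻ x, σ x ^ n) ≤ ∫⁻ x, ρ x ^ n := by
  have hn1 : 1 ≤ n := by omega
  by_cases hfin : ∫⁻ x, ρ x ^ n = ⊤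
  · rw [hfin]; exact le_top
  have hE0 := volume_zero_of_removable hn hE hrem
  have hρtop : nrm volume ρ ≠ ⊤ := nrm_ne_top hfin
  have hstep : ∀ θ ∈ Ioo (0:ℝ) 1,
      (⨅ (σ : Eu n → ℝ≥0∞) (_ : Adm ∅ F₁ F₂ σ), ∫⁻ x, σ x ^ n) ≤
      (ENNReal.ofReal (1 - θ)⁻¹ *
        (ENNReal.ofReal ((1 + θ) / (1 - θ)) * nrm volume ρ + ENNReal.ofReal θ)) ^ n := by
    intro θ hθ
    obtain ⟨v, hv, hvc, hv1, hv2, hloc, hnorm⟩ := exists_potential hn hE hE0 hF₁ hF₂ hne hρ.1 hfin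
      hρ.2 hθ.1 hθ.2
    exact modulus_le_of_potential hn hE hE0 hrem hv hvc (by linarith [hθ.2]) hv1 hv2 hloc
      (by finiteness) hnorm
  rw [← nrm_pow hn1]
  have hlim : Tendsto (fun θ : ℝ => (ENNReal.ofReal (1 - θ)⁻¹ *
      (ENNReal.ofReal ((1 + θ) / (1 - θ)) * nrm volume ρ + ENNReal.ofReal θ)) ^ n) (𝓝[>] 0)
      (𝓝 ((ENNReal.ofReal (1 - 0)⁻¹ *
      (ENNReal.ofReal ((1 + 0) / (1 - 0)) * nrm volume ρ + ENNReal.ofReal 0)) ^ n)) := by
    refine Tendsto.mono_left ?_ (nhdsWithin_le_nhds (s := Ioi (0:ℝ)))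
    have h1 : Tendsto (fun θ : ℝ => ENNReal.ofReal (1 - θ)⁻¹) (𝓝 0)
        (𝓝 (ENNReal.ofReal (1 - 0)⁻¹)) := by
      refine ENNReal.tendsto_ofReal ?_
      have : ContinuousAt (fun θ : ℝ => (1 - θ)⁻¹) 0 := by
        refine ContinuousAt.inv₀ (by fun_prop) (by norm_num)
      exact this
    have h2 : Tendsto (fun θ : ℝ => ENNReal.ofReal ((1 + θ) / (1 - θ))) (𝓝 0)
        (𝓝 (ENNReal.ofReal ((1 + 0) / (1 - 0)))) := by
      refine ENNReal.tendsto_ofReal ?_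
      have : ContinuousAt (fun θ : ℝ => (1 + θ) / (1 - θ)) 0 := by
        refine ContinuousAt.div (by fun_prop) (by fun_prop) (by norm_num)
      exact this
    have h3 : Tendsto (fun θ : ℝ => ENNReal.ofReal θ) (𝓝 0) (𝓝 (ENNReal.ofReal 0)) :=
      (ENNReal.continuous_ofReal.tendsto 0)
    have h4 := ((ENNReal.Tendsto.mul_const h2 (Or.inr hρtop)).add h3)
    have h5 := ENNReal.Tendsto.mul h1 (Or.inr (by finiteness)) h4 (Or.inr (by finiteness))
    have h6 := h5.ennrpow_const (n : ℝ)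
    simpa only [ENNReal.rpow_natCast] using h6
  have hval : (ENNReal.ofReal (1 - 0)⁻¹ *
      (ENNReal.ofReal ((1 + 0) / (1 - 0)) * nrm volume ρ + ENNReal.ofReal 0)) ^ n =
      nrm volume ρ ^ n := by
    simp
  rw [hval] at hlim
  refine ge_of_tendsto hlim ?_
  have : Ioo (0:ℝ) 1 ∈ 𝓝[>] (0:ℝ) := Ioo_mem_nhdsGT one_pos
  filter_upwards [this] with θ hθ using hstep θ hθ

end Pool.Agent.TH221
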