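import Pool.Agent.TH221.PartA
import Pool.Agent.TH55.J146
import Pool.Agent.TH554.J147
import Pool.Agent.TH55.J148

/-!
CNED sets are removable.
-/

set_option autoImplicit false

open MeasureTheory Set Filter Topology Metric
open scoped ENNReal NNReal ContDiff

namespace Pool.Agent.TH221

variable {n : ℕ}

/-- open spherical ring -/
def ring (x : Eu n) (r R : ℝ) : Set (Eu n) := {y | r < ‖y - x‖ ∧ ‖y - x‖ < R}

lemma isOpen_ring (x : Eu n) (r R : ℝ) : IsOpen (ring x r R) := by
  have h : Continuous fun y : Eu n => ‖y - x‖ := by fun_prop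
  exact (isOpen_lt continuous_const h).inter (isOpen_lt h continuous_const)

/-- energy of the extremal function -/
noncomputable def ringE (x : Eu n) (r R : ℝ) : ℝ≥0∞ :=
  ∫⁻ y in ring x r R, ENNReal.ofReal (1 / (Real.log (R / r) * ‖y - x‖)) ^ n

/-- functions admissible for the curves meeting `E` countably often have at least the energy of
the extremal function of each ring -/
def MinProp (E : Set (Eu n)) : Prop :=
  ∀ (x : Eu n) (r R : ℝ), 0 < r → r < R → ∀ ρ : Eu n → ℝ≥0∞,
    Adm E (sphere x r) (sphere x R) ρ → ringE x r R ≤ ∫⁻ y, ρ y ^ n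

/-- comparison of energies for potentials with weak gradient off `E` -/
theorem ring_le (hn : 2 ≤ n) {E : Set (Eu n)} (hE : IsClosed E) (hmin : MinProp E) {x : Eu n}
    {r R : ℝ} (hr : 0 < r) (hR : r < R) {v : Eu n → ℝ}
    (hv : ContinuousOn v {y | r ≤ ‖y - x‖ ∧ ‖y - x‖ ≤ R})
    (hv0 : ∀ y, ‖y - x‖ = r → v y = 0) (hv1 : ∀ y, ‖y - x‖ = R → v y = 1)
    {G : Eu n → Eu n →L[ℝ] ℝ} (hGm : Measurable G)
    (hG : MemLp G n (volume.restrict (ring x r R \ E)))
    (hW : WeakGrad (ring x r R \ E) v G) :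
    ringE x r R ≤ ∫⁻ y in ring x r R \ E, ENNReal.ofReal ‖G y‖ ^ n := by
  have hn1 : 1 ≤ n := by omega
  have hΩ : IsOpen (ring x r R \ E) := (isOpen_ring x r R).sdiff hE
  set Ω := ring x r R \ E with hΩdef
  have hvΩ : ContinuousOn v Ω := hv.mono fun y hy => ⟨hy.1.1.le, hy.1.2.le⟩
  obtain ⟨H, hHm, hHn, hH⟩ := fuglede hn hΩ hvΩ hGm hG hW
  have hGm' : Measurable (Ω.indicator fun y => ENNReal.ofReal ‖G y‖) :=
    hGm.norm.ennreal_ofReal.indicator hΩ.measurableSet
  have hstep : ∀ δ : ℝ≥0∞, δ ≠ 0 → δ ≠ ⊤ → ringE x r R ≤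
      (nrm volume (Ω.indicator fun y => ENNReal.ofReal ‖G y‖) + δ * nrm volume H) ^ n := by
    intro δ hδ0 hδ
    set σ : Eu n → ℝ≥0∞ := fun y => Ω.indicator (fun y => ENNReal.ofReal ‖G y‖) y + δ * H y
      with hσ
    have hσm : Measurable σ := hGm'.add (hHm.const_mul _)
    have hadm : Adm E (sphere x r) (sphere x R) σ := by
      refine ⟨hσm, fun a ha b hb γ ℓ hγ => ?_⟩
      rw [hσ, cost_add_fun hGm' hγ.lip, cost_const_mul _ hHm hγ.lip]
      by_cases htop : cost H γ 0 ℓ = ⊤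
      · rw [htop, ENNReal.mul_top hδ0, add_top]
        exact le_top
      -- the portion of the curve in the ring
      have hf : Continuous fun t => ‖γ t - x‖ := (hγ.lip.continuous.sub continuous_const).norm
      obtain ⟨s₁, s₂, h0, h12, h2, hs₁, hs₂, hs⟩ := exists_times hγ.nonneg hγ.lip.continuous
        (A₁ := {y | ‖y - x‖ ≤ r}) (A₂ := {y | R ≤ ‖y - x‖})
        (isClosed_le (by fun_prop) continuous_const) (isClosed_le continuous_const (by fun_prop))
        (by rw [hγ.left]; exact (mem_sphere_iff_norm.1 ha).le)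
        (by rw [hγ.right]; exact (mem_sphere_iff_norm.1 hb).ge)
      simp only [Set.mem_ofPred_eq, not_le] at hs₁ hs₂ hs
      have hlt : s₁ < s₂ := by
        rcases h12.eq_or_lt with h | h
        · exfalso; rw [h] at hs₁; linarith
        · exact h
      have hcl : Icc s₁ s₂ ⊆ {t | r ≤ ‖γ t - x‖ ∧ ‖γ t - x‖ ≤ R} := by
        rw [← closure_Ioo hlt.ne]
        refine closure_minimal (fun t ht => ⟨(hs t ht).1.le, (hs t ht).2.le⟩) ?_
        exact (isClosed_le continuous_const hf).inter (isClosed_le hf continuous_const)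
      have he₁ : ‖γ s₁ - x‖ = r := le_antisymm hs₁ (hcl ⟨le_rfl, hlt.le⟩).1
      have he₂ : ‖γ s₂ - x‖ = R := le_antisymm (hcl ⟨hlt.le, le_rfl⟩).2 hs₂
      have hUo : IsOpen (γ ⁻¹' Ω) := hΩ.preimage hγ.lip.continuous
      have hline := line_countable (f := fun t => v (γ t)) (g := fun s => ENNReal.ofReal ‖G (γ s)‖)
        hlt.le (hv.comp hγ.lip.continuous.continuousOn hcl) hUo ?_ ?_
      · have h3 : ENNReal.ofReal |v (γ s₂) - v (γ s₁)| = 1 := by
          rw [hv0 _ he₁, hv1 _ he₂]; simp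
        rw [← h3]
        refine le_trans (hline.trans ?_) le_self_add
        unfold cost
        have h4 : ∫⁻ s in Icc s₁ s₂ ∩ γ ⁻¹' Ω, ENNReal.ofReal ‖G (γ s)‖ =
            ∫⁻ s in Icc s₁ s₂ ∩ γ ⁻¹' Ω, Ω.indicator (fun y => ENNReal.ofReal ‖G y‖) (γ s) := by
          refine setLIntegral_congr_fun (measurableSet_Icc.inter hUo.measurableSet) ?_
          intro s hs'
          simp only [indicator_of_mem (show γ s ∈ Ω from hs'.2)]
        rw [h4]
        exact lintegral_mono_set fun s hs' => ⟨h0.trans hs'.1.1, hs'.1.2.trans h2⟩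
      · have hc : ((v '' (γ '' Icc 0 ℓ ∩ E)) ∪ {v (γ s₁), v (γ s₂)}).Countable :=
          (hγ.cnt.image v).union (Set.toFinite _).countable
        refine hc.mono ?_
        rintro _ ⟨t, ⟨htI, htU⟩, rfl⟩
        rcases eq_or_lt_of_le htI.1 with h | h
        · right; left; rw [← h]
        rcases eq_or_lt_of_le htI.2 with h' | h'
        · right; right; rw [h']; rfl
        left
        refine ⟨γ t, ⟨⟨t, ⟨h0.trans htI.1, htI.2.trans h2⟩, rfl⟩, ?_⟩, rfl⟩
        by_contra hcon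
        exact htU ⟨⟨(hs t ⟨h, h'⟩).1, (hs t ⟨h, h'⟩).2⟩, hcon⟩
      · intro p q hpq hsub
        refine hH γ hγ.lip p q hpq (fun s hs' => (hsub hs').2) ?_
        refine ne_top_of_le_ne_top htop ?_
        refine lintegral_mono_set fun s hs' => ?_
        have := (hsub hs').1
        exact ⟨h0.trans this.1, this.2.trans h2⟩
    refine (hmin x r R hr hR σ hadm).trans ?_
    rw [← nrm_le_iff hn1]
    refine (nrm_add_le hn1 hGm'.aemeasurable (hHm.const_mul _).aemeasurable).trans ?_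
    rw [nrm_const_mul hn1 hδ]
  have hHtop : nrm volume H ≠ ⊤ := nrm_ne_top hHn
  set N := nrm volume (Ω.indicator fun y => ENNReal.ofReal ‖G y‖) with hN
  have hlim : Tendsto (fun k : ℕ => (N + ((k : ℝ≥0∞) + 1)⁻¹ * nrm volume H) ^ n) atTop
      (𝓝 ((N + 0) ^ n)) := by
    have h1 : Tendsto (fun k : ℕ => ((k : ℝ≥0∞) + 1)⁻¹) atTop (𝓝 0) := by
      refine tendsto_of_tendsto_of_tendsto_of_le_of_le tendsto_const_nhds
        ENNReal.tendsto_inv_nat_nhds_zero (fun _ => zero_le) fun k => ?_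
      exact ENNReal.inv_le_inv.2 le_self_add
    have h2 : Tendsto (fun k : ℕ => ((k : ℝ≥0∞) + 1)⁻¹ * nrm volume H) atTop (𝓝 0) := by
      have := ENNReal.Tendsto.mul_const h1 (Or.inr hHtop)
      simpa using this
    have h3 := (Tendsto.const_add N h2).ennrpow_const (n : ℝ)
    simpa only [ENNReal.rpow_natCast] using h3
  rw [add_zero] at hlim
  refine (ge_of_tendsto' hlim fun k => hstep _ (by simp) (by simp)).trans (le_of_eq ?_)
  rw [hN, nrm_pow hn1, ← lintegral_indicator hΩ.measurableSet]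
  refine lintegral_congr fun y => ?_
  by_cases hy : y ∈ Ω
  · simp only [indicator_of_mem hy]
  · simp only [indicator_of_notMem hy]
    exact zero_pow (by omega)

/-- radial potential -/
noncomputable def rad (x : Eu n) (r R : ℝ) (y : Eu n) : ℝ :=
  Real.log (‖y - x‖ / r) / Real.log (R / r)

/-- its gradient -/
noncomputable def radG (x : Eu n) (r R : ℝ) (y : Eu n) : Eu n →L[ℝ] ℝ :=
  (Real.log (R / r) * ‖y - x‖ ^ 2)⁻¹ • innerSL ℝ (y - x)

lemma rad_contDiffAt {x : Eu n} {r R : ℝ} (hr : 0 < r) {y : Eu n} (hy : y ≠ x) :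
    ContDiffAt ℝ ∞ (rad x r R) y := by
  have h0 : y - x ≠ 0 := sub_ne_zero.2 hy
  unfold rad
  refine ContDiffAt.div_const (ContDiffAt.log ?_ ?_) _
  · exact ((contDiffAt_norm ℝ h0).comp y (by fun_prop)).div_const _
  · have := norm_pos_iff.2 h0
    positivity

lemma rad_hasFDerivAt {x : Eu n} {r R : ℝ} (hr : 0 < r) {y : Eu n} (hy : y ≠ x) :
    HasFDerivAt (rad x r R) (radG x r R y) y := by
  have h0 : y - x ≠ 0 := sub_ne_zero.2 hy
  have hpos := norm_pos_iff.2 h0
  have h1 : rad x r R =ᶠ[𝓝 y] fun z =>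
      (Real.log (‖z - x‖ ^ 2) / 2 - Real.log r) / Real.log (R / r) := by
    filter_upwards [isOpen_ne.mem_nhds hy] with z hz
    have hz0 : 0 < ‖z - x‖ := norm_pos_iff.2 (sub_ne_zero.2 hz)
    unfold rad
    rw [Real.log_div hz0.ne' hr.ne', Real.log_pow]
    norm_num
  refine HasFDerivAt.congr_of_eventuallyEq ?_ h1
  have h2 : HasFDerivAt (fun z : Eu n => z - x) (ContinuousLinearMap.id ℝ (Eu n)) y :=
    (hasFDerivAt_id y).sub_const x
  have h3 := (h2.norm_sq).log (by positivity)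
  have h4 := ((h3.mul_const (2:ℝ)⁻¹).sub_const (Real.log r)).mul_const (Real.log (R / r))⁻¹
  simp only [← div_eq_mul_inv] at h4
  refine h4.congr_fderiv ?_
  ext w
  simp only [radG, smul_apply, smul_eq_mul, ContinuousLinearMap.comp_id, innerSL_apply_apply,
    mul_inv]
  ring_nf

lemma radG_norm {x : Eu n} {r R : ℝ} (hr : 0 < r) (hR : r < R) {y : Eu n} :
    ‖radG x r R y‖ = 1 / (Real.log (R / r) * ‖y - x‖) := by
  have hL : 0 < Real.log (R / r) := Real.log_pos ((one_lt_div hr).2 hR)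
  unfold radG
  rw [norm_smul, innerSL_apply_norm, Real.norm_eq_abs, abs_of_nonneg (by positivity)]
  rcases eq_or_ne ‖y - x‖ 0 with h | h
  · rw [h]; simp
  · field_simp

end Pool.Agent.TH221
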