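import Pool.Agent.TH221.PartB

/-!
CNED sets are removable, second part.
-/

set_option autoImplicit false

open MeasureTheory Set Filter Topology Metric
open scoped ENNReal NNReal ContDiff

namespace Pool.Agent.TH221

variable {n : ℕ}

lemma ne_of_mem_ring {x y : Eu n} {r R : ℝ} (hr : 0 < r) (hy : y ∈ ring x r R) : y ≠ x := by
  rintro rfl
  have := hy.1
  simp only [sub_self, norm_zero] at this
  linarith

lemma rad_continuousOn {x : Eu n} {r R : ℝ} (hr : 0 < r) :
    ContinuousOn (rad x r R) {y | r ≤ ‖y - x‖ ∧ ‖y - x‖ ≤ R} := by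
  intro y hy
  have hne : y ≠ x := by
    rintro rfl
    have := hy.1
    simp only [sub_self, norm_zero] at this
    linarith
  exact (rad_hasFDerivAt hr hne).continuousAt.continuousWithinAt

lemma rad_weakGrad {x : Eu n} {r R : ℝ} (hr : 0 < r) {Ω : Set (Eu n)} (hΩ : IsOpen Ω)
    (hsub : Ω ⊆ ring x r R) : WeakGrad Ω (rad x r R) (radG x r R) := by
  refine WeakGrad.congr_ae (weakGrad_of_lip hΩ fun z hz => ?_) (Eventually.of_forall fun z hz => ?_)
  · have h1 : ContDiffAt ℝ 1 (rad x r R) z :=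
      (rad_contDiffAt hr (ne_of_mem_ring hr (hsub hz))).of_le (by norm_num)
    obtain ⟨K, t, ht, hK⟩ := h1.exists_lipschitzOnWith
    obtain ⟨ε, hε, hεt⟩ := Metric.mem_nhds_iff.1 ht
    exact ⟨ε, hε, K, hK.mono hεt⟩
  · exact (rad_hasFDerivAt hr (ne_of_mem_ring hr (hsub hz))).fderiv

lemma radG_measurable (x : Eu n) (r R : ℝ) : Measurable (radG x r R) := by
  have h1 : Measurable fun y : Eu n => (Real.log (R / r) * ‖y - x‖ ^ 2)⁻¹ := by fun_prop
  have h2 : Measurable fun y : Eu n => (innerSL ℝ (y - x) : Eu n →L[ℝ] ℝ) :=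
    ((innerSL ℝ).continuous.comp (by fun_prop : Continuous fun y : Eu n => y - x)).measurable
  exact h1.smul h2

lemma ring_finite (x : Eu n) (r R : ℝ) : volume (ring x r R) < ⊤ := by
  refine (measure_mono ?_).trans_lt (measure_closedBall_lt_top (x := x) (r := R))
  intro y hy
  rw [mem_closedBall, dist_eq_norm]
  exact hy.2.le

lemma radG_memLp {x : Eu n} {r R : ℝ} (hr : 0 < r) (hR : r < R) {Ω : Set (Eu n)}
    (hsub : Ω ⊆ ring x r R) (hΩ : MeasurableSet Ω) :
    MemLp (radG x r R) n (volume.restrict Ω) := by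
  have hL : 0 < Real.log (R / r) := Real.log_pos ((one_lt_div hr).2 hR)
  have : IsFiniteMeasure (volume.restrict Ω : Measure (Eu n)) :=
    ⟨by rw [Measure.restrict_apply_univ]; exact (measure_mono hsub).trans_lt (ring_finite x r R)⟩
  refine MemLp.of_bound (radG_measurable x r R).aestronglyMeasurable
    (1 / (Real.log (R / r) * r)) ?_
  filter_upwards [ae_restrict_mem hΩ] with y hy
  rw [radG_norm hr hR]
  have h1 := (hsub hy).1
  gcongr

lemma rad_left {x y : Eu n} {r R : ℝ} (hr : 0 < r) (hy : ‖y - x‖ = r) : rad x r R y = 0 := by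
  unfold rad
  rw [hy, div_self hr.ne', Real.log_one, zero_div]

lemma rad_right {x y : Eu n} {r R : ℝ} (hr : 0 < r) (hR : r < R) (hy : ‖y - x‖ = R) :
    rad x r R y = 1 := by
  have hL : 0 < Real.log (R / r) := Real.log_pos ((one_lt_div hr).2 hR)
  unfold rad
  rw [hy, div_self hL.ne']

lemma ringE_ne_top {x : Eu n} {r R : ℝ} (hr : 0 < r) (hR : r < R) : ringE x r R ≠ ⊤ := by
  have hL : 0 < Real.log (R / r) := Real.log_pos ((one_lt_div hr).2 hR)
  unfold ringE
  have h1 : ∫⁻ y in ring x r R, ENNReal.ofReal (1 / (Real.log (R / r) * ‖y - x‖)) ^ n ≤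
      ∫⁻ _y in ring x r R, ENNReal.ofReal (1 / (Real.log (R / r) * r)) ^ n := by
    refine setLIntegral_mono' (isOpen_ring x r R).measurableSet fun y hy => ?_
    have := hy.1
    gcongr
  refine ne_top_of_le_ne_top ?_ h1
  rw [setLIntegral_const]
  have := (ring_finite x r R).ne
  finiteness

/-- CNED sets are null sets -/
theorem volume_zero_of_minProp (hn : 2 ≤ n) {E : Set (Eu n)} (hE : IsClosed E)
    (hmin : MinProp E) : volume E = 0 := by
  have hn1 : 1 ≤ n := by omega
  have key : ∀ (x : Eu n) (r R : ℝ), 0 < r → r < R → volume (ring x r R ∩ E) = 0 := by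
    intro x r R hr hR
    have hL : 0 < Real.log (R / r) := Real.log_pos ((one_lt_div hr).2 hR)
    have hΩ : IsOpen (ring x r R \ E) := (isOpen_ring x r R).sdiff hE
    have h1 := ring_le hn hE hmin hr hR (v := rad x r R) (rad_continuousOn hr)
      (fun y hy => rad_left hr hy) (fun y hy => rad_right hr hR hy) (radG_measurable x r R)
      (radG_memLp hr hR sdiff_subset hΩ.measurableSet) (rad_weakGrad hr hΩ sdiff_subset)
    simp only [radG_norm hr hR] at h1
    have h2 : ringE x r R = (∫⁻ y in ring x r R ∩ E,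
        ENNReal.ofReal (1 / (Real.log (R / r) * ‖y - x‖)) ^ n) +
        ∫⁻ y in ring x r R \ E, ENNReal.ofReal (1 / (Real.log (R / r) * ‖y - x‖)) ^ n := by
      unfold ringE
      exact (lintegral_inter_add_sdiff _ _ hE.measurableSet).symm
    rw [h2] at h1
    have hfin : ∫⁻ y in ring x r R \ E,
        ENNReal.ofReal (1 / (Real.log (R / r) * ‖y - x‖)) ^ n ≠ ⊤ :=
      ne_top_of_le_ne_top (ringE_ne_top hr hR) (lintegral_mono_set sdiff_subset)
    have h3 : ∫⁻ y in ring x r R ∩ E,
        ENNReal.ofReal (1 / (Real.log (R / r) * ‖y - x‖)) ^ n = 0 := by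
      have h4 : (∫⁻ y in ring x r R ∩ E,
        ENNReal.ofReal (1 / (Real.log (R / r) * ‖y - x‖)) ^ n) +
        ∫⁻ y in ring x r R \ E, ENNReal.ofReal (1 / (Real.log (R / r) * ‖y - x‖)) ^ n ≤
        0 + ∫⁻ y in ring x r R \ E, ENNReal.ofReal (1 / (Real.log (R / r) * ‖y - x‖)) ^ n := by
        rwa [zero_add]
      exact le_antisymm ((ENNReal.add_le_add_iff_right hfin).1 h4) zero_le
    have hm : MeasurableSet (ring x r R ∩ E) :=
      (isOpen_ring x r R).measurableSet.inter hE.measurableSet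
    rw [lintegral_eq_zero_iff (by fun_prop)] at h3
    have h5 : ∀ᵐ y ∂(volume.restrict (ring x r R ∩ E)), False := by
      filter_upwards [h3, ae_restrict_mem hm] with y hy hyE
      have h6 : 0 < ‖y - x‖ := hr.trans hyE.1.1
      simp only [Pi.zero_apply] at hy
      have h7 : ENNReal.ofReal (1 / (Real.log (R / r) * ‖y - x‖)) ≠ 0 := by
        have : 0 < 1 / (Real.log (R / r) * ‖y - x‖) := by positivity
        exact (ENNReal.ofReal_pos.2 this).ne'
      exact h7 (pow_eq_zero_iff (by omega) |>.1 hy)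
    rw [ae_iff] at h5
    simpa using h5
  have hcov : E ⊆ {0} ∪ ⋃ k : ℕ, (ring (0 : Eu n) (1 / ((k : ℝ) + 1)) (k + 2) ∩ E) := by
    intro y hy
    by_cases h0 : y = 0
    · left; exact h0
    right
    have hpos : 0 < ‖y‖ := norm_pos_iff.2 h0
    obtain ⟨k₁, hk₁⟩ := exists_nat_one_div_lt hpos
    obtain ⟨k₂, hk₂⟩ := exists_nat_gt ‖y‖
    refine mem_iUnion.2 ⟨max k₁ k₂, ⟨?_, ?_⟩, hy⟩
    · rw [sub_zero]
      refine lt_of_le_of_lt ?_ hk₁
      gcongr
      exact le_max_left _ _
    · rw [sub_zero]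
      have : (k₂ : ℝ) ≤ (max k₁ k₂ : ℕ) := by exact_mod_cast le_max_right k₁ k₂
      linarith
  have hne : Nonempty (Fin n) := ⟨⟨0, by omega⟩⟩
  have hnt : Nontrivial (Eu n) := inferInstance
  refine measure_mono_null hcov ?_
  refine measure_union_null (measure_singleton _) (measure_iUnion_null fun k => ?_)
  refine key 0 _ _ (by positivity) ?_
  have : (1:ℝ) / ((k : ℝ) + 1) ≤ 1 := by
    rw [div_le_one (by positivity)]
    linarith [Nat.cast_nonneg (α := ℝ) k]
  linarith [Nat.cast_nonneg (α := ℝ) k]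

/-- CNED sets are removable for continuous `W^{1,n}` functions -/
theorem removable_of_minProp (hn : 2 ≤ n) {E : Set (Eu n)} (hE : IsClosed E)
    (hmin : MinProp E) {w : Eu n → ℝ} (hw : Continuous w) (hInW : InW Eᶜ w) : InW univ w := by
  have hn1 : 1 ≤ n := by omega
  have hE0 := volume_zero_of_minProp hn hE hmin
  have hrestr : (volume : Measure (Eu n)).restrict Eᶜ = volume := by
    rw [Measure.restrict_eq_self_of_ae_mem]
    rw [ae_iff]
    simpa using hE0
  obtain ⟨hwLp, G₀, hG₀, hW₀⟩ := hInW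
  rw [hrestr] at hwLp hG₀
  obtain ⟨G, hGm, hGG⟩ : ∃ G : Eu n → Eu n →L[ℝ] ℝ, Measurable G ∧
      ∀ᵐ x ∂(volume : Measure (Eu n)), G₀ x = G x :=
    ⟨hG₀.1.mk G₀, hG₀.1.stronglyMeasurable_mk.measurable, hG₀.1.ae_eq_mk⟩
  have hW : WeakGrad Eᶜ w G := hW₀.congr_ae (hGG.mono fun x hx _ => hx)
  have hG : MemLp G n volume := hG₀.ae_eq hGG
  have hGloc : LocallyIntegrable G volume := by
    have := locInt_of_memLp (Ω := univ) hn1 isOpen_univ (G := G)
      (by rwa [Measure.restrict_univ])
    rwa [locallyIntegrableOn_univ] at this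
  refine ⟨by rwa [Measure.restrict_univ], G, by rwa [Measure.restrict_univ], ?_⟩
  refine weakGrad_of_identity hn1 hw hGloc ?_
  intro x r R hr hR χ hχ hχc hχs
  set A : Set (Eu n) := ring x r R with hA
  have hAo : IsOpen A := isOpen_ring x r R
  have hΩ : IsOpen (A \ E) := hAo.sdiff hE
  obtain ⟨B, hB⟩ : ∃ B : Eu n → Eu n →L[ℝ] ℝ, B = fun y => χ y • G y + w y • fderiv ℝ χ y :=
    ⟨_, rfl⟩
  have hfχ : Continuous (fderiv ℝ χ) := hχ.continuous_fderiv (by norm_num)
  have hBm : Measurable B := by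
    rw [hB]
    exact (hχ.continuous.measurable.smul hGm).add (hw.measurable.smul hfχ.measurable)
  obtain ⟨C, hC⟩ := hχc.exists_bound_of_continuous hχ.continuous
  have hBLp : MemLp B n volume := by
    rw [hB]
    refine MemLp.add (f := fun y => χ y • G y) (g := fun y => w y • fderiv ℝ χ y) ?_ ?_
    · refine MemLp.of_le_mul (g := G) (c := C) hG
        ((hχ.continuous.measurable.smul hGm).aestronglyMeasurable)
        (Eventually.of_forall fun y => ?_)
      rw [norm_smul]
      exact mul_le_mul_of_nonneg_right (hC y) (norm_nonneg _)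
    · have hcs : HasCompactSupport (fun y => w y • fderiv ℝ χ y) := by
        refine (hχc.fderiv (𝕜 := ℝ)).mono fun y hy h0 => hy ?_
        show w y • fderiv ℝ χ y = 0
        rw [h0, smul_zero]
      exact Continuous.memLp_of_hasCompactSupport (hw.smul hfχ) hcs
  have hχ0 : ∀ y, y ∉ A → χ y = 0 := fun y hy =>
    image_eq_zero_of_notMem_tsupport fun h => hy (hχs h)
  have hdχ0 : ∀ y, y ∉ A → fderiv ℝ χ y = 0 := by
    intro y hy
    by_contra hne
    exact hy (hχs (support_fderiv_subset ℝ (Function.mem_support.2 hne)))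
  have hvar := variation hn x hr hR (B := B) (hBLp.restrict _) ?_
  · have h1 : ∫ y, (‖y - x‖ ^ n)⁻¹ * (χ y * G y (y - x) + w y * fderiv ℝ χ y (y - x)) =
        ∫ y in A, (‖y - x‖ ^ n)⁻¹ * B y (y - x) := by
      rw [setIntegral_eq_integral_of_forall_compl_eq_zero]
      · refine integral_congr_ae (Eventually.of_forall fun y => ?_)
        simp only [hB, add_apply, smul_apply, smul_eq_mul]
      · intro y hy
        simp only [hB, hχ0 y hy, hdχ0 y hy]
        simp
    rw [h1]
    exact hvar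
  · intro ε
    have hWB : WeakGrad (A \ E) (fun y => χ y * w y) B := by
      have h1 := hW.smul hn1 hE.isOpen_compl hw.continuousOn (hG.restrict _) hχ
      rw [← hB] at h1
      intro φ hφ hc hs v
      exact h1 φ hφ hc (hs.trans fun y hy => hy.2) v
    have hc1 : ContinuousOn (rad x r R) (A \ E) :=
      (rad_continuousOn hr).mono fun y hy => ⟨hy.1.1.le, hy.1.2.le⟩
    have hc2 : ContinuousOn (fun y => χ y * w y) (A \ E) :=
      (hχ.continuous.mul hw).continuousOn
    have hL1 : MemLp (radG x r R) n (volume.restrict (A \ E)) :=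
      radG_memLp hr hR sdiff_subset hΩ.measurableSet
    have hL2 : MemLp B n (volume.restrict (A \ E)) := hBLp.restrict _
    have hWr : WeakGrad (A \ E) (rad x r R) (radG x r R) := rad_weakGrad hr hΩ sdiff_subset
    have hWv : WeakGrad (A \ E) (fun y => rad x r R y + ε * (χ y * w y))
        (fun y => radG x r R y + ε • B y) :=
      hWr.add_const_mul hn1 hΩ hWB hc1 hc2 hL1 hL2 ε
    have hcv : ContinuousOn (fun y => rad x r R y + ε * (χ y * w y))
        {y | r ≤ ‖y - x‖ ∧ ‖y - x‖ ≤ R} :=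
      (rad_continuousOn hr).add (continuous_const.mul (hχ.continuous.mul hw)).continuousOn
    have hGvm : Measurable (fun y => radG x r R y + ε • B y) :=
      (radG_measurable x r R).add (hBm.const_smul ε)
    have hL3 : MemLp (fun y => ε • B y) n (volume.restrict (A \ E)) := hL2.const_smul ε
    have hGvLp : MemLp (fun y => radG x r R y + ε • B y) n (volume.restrict (A \ E)) :=
      MemLp.add (f := fun y => radG x r R y) (g := fun y => ε • B y) hL1 hL3
    have hv0 : ∀ y, ‖y - x‖ = r → (fun y => rad x r R y + ε * (χ y * w y)) y = 0 := by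
      intro y hy
      have h3 : χ y = 0 := hχ0 y fun h => absurd h.1 (by rw [hy]; exact lt_irrefl _)
      simp only [rad_left hr hy, h3, zero_mul, mul_zero, add_zero]
    have hv1 : ∀ y, ‖y - x‖ = R → (fun y => rad x r R y + ε * (χ y * w y)) y = 1 := by
      intro y hy
      have h3 : χ y = 0 := hχ0 y fun h => absurd h.2 (by rw [hy]; exact lt_irrefl _)
      simp only [rad_right hr hR hy, h3, zero_mul, mul_zero, add_zero]
    have h2 := ring_le hn hE hmin hr hR hcv hv0 hv1 hGvm hGvLp hWv
    exact h2.trans (lintegral_mono_set sdiff_subset)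

end Pool.Agent.TH221
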