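import Pool.Agent.TH221.Aux1
import Pool.Agent.TH55.J140
import Pool.Agent.TH55.J142
import Pool.Agent.TH554.J145

/-!
Construction of the potential of a condenser.
-/

set_option autoImplicit false

open MeasureTheory Set Filter Topology Metric
open scoped ENNReal NNReal

namespace Pool.Agent.TH221

variable {n : ℕ} {K E : Set (Eu n)} {ρ : Eu n → ℝ≥0∞}

/-- `ρ'` off `C'`, plus a base function -/
noncomputable def hatF (C' : Set (Eu n)) (ρ' base : Eu n → ℝ≥0∞) : Eu n → ℝ≥0∞ :=
  fun x => C'ᶜ.indicator ρ' x + base x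

lemma hatF_lsc {C' : Set (Eu n)} (hC' : IsClosed C') {ρ' base : Eu n → ℝ≥0∞}
    (hρ' : ContinuousOn ρ' C'ᶜ) (hb : Continuous base) : LowerSemicontinuous (hatF C' ρ' base) :=
  (lsc_indicator hC'.isOpen_compl hρ').add hb.lowerSemicontinuous

lemma hatF_bdd {C C' : Set (Eu n)} (hC : IsClosed C) {ρ' base : Eu n → ℝ≥0∞}
    (hρ' : ContinuousOn ρ' Cᶜ) (hρfin : ∀ x ∉ C, ρ' x ≠ ⊤) (hb : Continuous base) {z : Eu n}
    (hz : z ∉ C) (hbz : base z ≠ ⊤) : ∃ M : ℝ≥0∞, M ≠ ⊤ ∧ ∀ᶠ y in 𝓝 z, hatF C' ρ' base y ≤ M := by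
  have h1 : ∀ᶠ y in 𝓝 z, ρ' y ≤ ρ' z + 1 :=
    bdd_near (hρ'.continuousAt (hC.isOpen_compl.mem_nhds hz)) (hρfin z hz)
      (ENNReal.lt_add_right (hρfin z hz) one_ne_zero)
  have h2 : ∀ᶠ y in 𝓝 z, base y ≤ base z + 1 :=
    bdd_near hb.continuousAt hbz (ENNReal.lt_add_right hbz one_ne_zero)
  refine ⟨(ρ' z + 1) + (base z + 1), ?_, ?_⟩
  · have := hρfin z hz
    finiteness
  · filter_upwards [h1, h2] with y hy1 hy2
    refine add_le_add ((indicator_le_self' (fun _ _ => zero_le) y).trans hy1) hy2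

lemma hatF_anti {C C' : Set (Eu n)} (hCC' : C ⊆ C') {ρ' base : Eu n → ℝ≥0∞} (x : Eu n) :
    hatF C' ρ' base x ≤ hatF C ρ' base x := by
  unfold hatF
  exact add_le_add (indicator_le_indicator_of_subset (compl_subset_compl.2 hCC')
    (fun _ => zero_le) x) le_rfl

theorem exists_potential (hn : 2 ≤ n) {F₁ F₂ : Set (Eu n)} (hE : IsClosed E)
    (hE0 : volume E = 0) (hF₁ : IsCompact F₁) (hF₂ : IsCompact F₂) (hne : F₁.Nonempty)
    (hρm : Measurable ρ) (hfin : ∫⁻ x, ρ x ^ n ≠ ⊤)
    (hadm : ∀ x ∈ F₁, ∀ y ∈ F₂, ∀ γ ℓ, Crv univ E x y γ ℓ → 1 ≤ cost ρ γ 0 ℓ)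
    {θ : ℝ} (hθ : 0 < θ) (hθ1 : θ < 1) :
    ∃ v : Eu n → ℝ, Continuous v ∧ HasCompactSupport v ∧ (∀ x ∈ F₁, v x = 1 - θ) ∧
      (∀ x ∈ F₂, v x = 0) ∧
      (∀ z ∉ E, ∃ r > 0, ∃ C, LipschitzOnWith C v (ball z r)) ∧
      nrm (volume.restrict Eᶜ) (fun x => ENNReal.ofReal ‖fderiv ℝ v x‖) ≤
        ENNReal.ofReal ((1 + θ) / (1 - θ)) * nrm volume ρ + ENNReal.ofReal θ := by
  have hn1 : 1 ≤ n := by omega
  -- the radius of a ball containing both sets
  obtain ⟨R₀, hR₀, hFR⟩ : ∃ R₀ > 0, ∀ x ∈ F₁ ∪ F₂, ‖x‖ + 1 ≤ R₀ := by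
    obtain ⟨R, hR⟩ := (hF₁.union hF₂).isBounded.exists_norm_le
    refine ⟨|R| + 1, by positivity, fun x hx => ?_⟩
    have := (hR x hx).trans (le_abs_self R)
    linarith
  set δ : ℝ≥0∞ := ENNReal.ofReal (θ / 3) with hδ
  have hδ0 : 0 < δ := by rw [hδ]; exact ENNReal.ofReal_pos.2 (by linarith)
  obtain ⟨R₁, b, hR₁, hb, hbfin, hbn, hbar⟩ := exists_barrier hn hR₀ (ε := δ ^ n)
    (ENNReal.pow_pos hδ0 n)
  set K : Set (Eu n) := closedBall 0 (2 * R₁) with hKdef
  have hR₁0 : 0 < R₁ := hR₀.trans hR₁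
  have hK : IsCompact K := isCompact_closedBall _ _
  have hKc : Convex ℝ K := convex_closedBall _ _
  obtain ⟨h, hh, hhE, hhfin, hhn⟩ := exists_infinite_on hn1 (P := E ∩ K)
    (hK.inter_left hE) (measure_mono_null inter_subset_left hE0) (ε := δ ^ n)
    (ENNReal.pow_pos hδ0 n)
  obtain ⟨η, hη, hηn⟩ : ∃ η : ℝ, 0 < η ∧
      nrm (volume.restrict K) (fun _ => ENNReal.ofReal η) ≤ δ := by
    have hvol : volume K ≠ ⊤ := hK.measure_lt_top.ne
    have h1 : Tendsto (fun η : ℝ => ENNReal.ofReal η ^ n * volume K) (𝓝[>] 0) (𝓝 0) := by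
      have h2 : Tendsto (fun η : ℝ => ENNReal.ofReal η ^ n) (𝓝[>] 0) (𝓝 0) := by
        have h3 : Tendsto (fun η : ℝ => ENNReal.ofReal η) (𝓝[>] 0) (𝓝 0) := by
          have := (ENNReal.continuous_ofReal.tendsto (0:ℝ)).mono_left
            (nhdsWithin_le_nhds (s := Ioi 0))
          simpa using this
        have := h3.ennrpow_const (n : ℝ)
        simp only [ENNReal.rpow_natCast] at this
        rwa [zero_pow (by omega)] at this
      have := ENNReal.Tendsto.mul_const h2 (Or.inr hvol)
      simpa using this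
    obtain ⟨η, hη1, hη2⟩ := ((h1.eventually (ge_mem_nhds (ENNReal.pow_pos hδ0 n))).and
      self_mem_nhdsWithin).exists
    refine ⟨η, hη2, (nrm_le_iff hn1).2 ?_⟩
    rw [lintegral_const, Measure.restrict_apply_univ]
    exact hη1
  set C : Set (Eu n) := E ∪ F₁ ∪ F₂ with hCdef
  have hC : IsClosed C := (hE.union hF₁.isClosed).union hF₂.isClosed
  have hEC : E ⊆ C := fun x hx => Or.inl (Or.inl hx)
  have hF₁C : F₁ ⊆ C := fun x hx => Or.inl (Or.inr hx)
  have hF₂C : F₂ ⊆ C := fun x hx => Or.inr hx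
  obtain ⟨ρ', hρ'm, hρ'c, hρ'fin, hρ'adm, hρ'n⟩ := smoothing hn1 hC (hne.mono hF₁C) hEC hF₁C hF₂C
    hρm hfin hadm hθ hθ1
  set base : Eu n → ℝ≥0∞ := fun x => h x + (ENNReal.ofReal η + b x) with hbase
  have hbasec : Continuous base := hh.add (continuous_const.add hb)
  have hbase_fin : ∀ x, x ∉ E ∩ K → base x ≠ ⊤ := fun x hx => by
    have h1 := hhfin x hx
    have h2 := hbfin x
    simp only [hbase]
    finiteness
  have hbase_top : ∀ x ∈ K ∩ E, base x = ⊤ := fun x hx => by
    simp only [hbase, hhE x ⟨hx.2, hx.1⟩, top_add]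
  -- properties of the functions `hatF C' ρ' base`
  have hat_top : ∀ C' : Set (Eu n), ∀ z ∈ K ∩ E, hatF C' ρ' base z = ⊤ := fun C' z hz => by
    simp only [hatF, hbase_top z hz, add_top]
  have hat_base : ∀ (C' : Set (Eu n)) z, base z ≤ hatF C' ρ' base z := fun C' z => le_add_self
  have hat_eta : ∀ (C' : Set (Eu n)), ∀ z ∈ K, ENNReal.ofReal η ≤ hatF C' ρ' base z :=
    fun C' z _ => le_trans (by simp only [hbase]; exact le_add_left le_self_add) (hat_base C' z)
  have hat_b : ∀ (C' : Set (Eu n)) z, b z ≤ hatF C' ρ' base z :=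
    fun C' z => le_trans (by simp only [hbase]; exact le_add_left le_add_self) (hat_base C' z)
  -- first density: admissible
  have hadm1 : ∀ x ∈ F₁, ∀ y ∈ F₂, 1 ≤ dist' K E (hatF C ρ' base) x y := by
    intro x hx y hy
    refine le_dist'_iff.2 fun γ ℓ hγ => ?_
    by_contra hcon
    push Not at hcon
    obtain ⟨s₁, s₂, h0, h12, h2, hs₁, hs₂, hs⟩ := exists_times hγ.nonneg hγ.lip.continuous
      hF₁.isClosed hF₂.isClosed (by rwa [hγ.left]) (by rwa [hγ.right])
    have hsub := (hγ.sub h0 h12 h2).mono (subset_univ K) (subset_refl E)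
    have h3 := hρ'adm _ hs₁ _ hs₂ _ _ hsub
    rw [cost_sub'] at h3
    have hm : Measurable (hatF C ρ' base) := (hatF_lsc hC hρ'c hbasec).measurable
    have hae : ∀ᵐ s ∂(volume.restrict (Icc 0 ℓ)), hatF C ρ' base (γ s) < ⊤ :=
      ae_lt_top (hm.comp hγ.lip.continuous.measurable)
        (ne_top_of_lt hcon)
    have h4 : cost ρ' γ s₁ s₂ ≤ cost (hatF C ρ' base) γ s₁ s₂ := by
      rw [cost_eq_Ioo, cost_eq_Ioo]
      refine setLIntegral_mono_ae' measurableSet_Ioo ?_
      rw [ae_restrict_iff' measurableSet_Icc] at hae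
      filter_upwards [hae] with s hs' hsI
      have h5 := hs' ⟨h0.trans hsI.1.le, hsI.2.le.trans h2⟩
      have h6 : γ s ∉ E := by
        intro hE'
        rw [hat_top C _ ⟨hγ.mem s ⟨h0.trans hsI.1.le, hsI.2.le.trans h2⟩, hE'⟩] at h5
        exact lt_irrefl _ h5
      have h7 : γ s ∈ Cᶜ := by
        rintro ((h8 | h8) | h8)
        · exact h6 h8
        · exact (hs s hsI).1 h8
        · exact (hs s hsI).2 h8
      unfold hatF
      rw [indicator_of_mem h7]
      exact le_self_add
    exact absurd (h3.trans (h4.trans (cost_mono h0 h2))) (not_le.2 hcon)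
  -- separation
  have hη0 := hη.le
  set a : ℝ≥0∞ := ENNReal.ofReal (1 - θ / 2) with ha
  have ha1 : a < 1 := by
    rw [ha, ← ENNReal.ofReal_one, ENNReal.ofReal_lt_ofReal_iff one_pos]
    linarith
  obtain ⟨τ, hτ, hsep⟩ := separation (E := E) (ρ := hatF C ρ' base) hK hKc
    (hatF_lsc hC hρ'c hbasec) hη (hat_eta C) (hat_top C) hF₁.isClosed hF₂.isClosed
    (fun z hzK hzE hz1 hz2 => by
      have hzC : z ∉ C := by
        rintro ((h8 | h8) | h8)
        exacts [hzE h8, hz1 h8, hz2 h8]
      obtain ⟨M, hM, hM'⟩ := hatF_bdd (C' := C) hC hρ'c hρ'fin hbasec hzC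
        (hbase_fin z fun h' => hzE h'.1)
      refine LocB.of_eventually hM ?_
      filter_upwards [hM', hE.isOpen_compl.mem_nhds hzE] with y hy hy' using ⟨hy', hy⟩)
    ENNReal.ofReal_ne_top (fun x hx y hy => ha1.trans_le (hadm1 x hx y hy))
  set τ' : ℝ := min τ 1 with hτ'
  have hτ'0 : 0 < τ' := lt_min hτ one_pos
  set A₁ : Set (Eu n) := cthickening τ' F₁ with hA₁
  set A₂ : Set (Eu n) := cthickening τ' F₂ with hA₂
  set N : Set (Eu n) := cthickening (τ' / 2) F₁ ∪ cthickening (τ' / 2) F₂ with hN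
  have hNc : IsClosed N := isClosed_cthickening.union isClosed_cthickening
  set C' : Set (Eu n) := C ∪ N with hC'def
  have hC' : IsClosed C' := hC.union hNc
  have hCC' : C ⊆ C' := subset_union_left
  have hA₁R : ∀ x ∈ A₁, ‖x‖ ≤ R₀ := by
    intro x hx
    obtain ⟨y, hy, hxy⟩ := hF₁.exists_infDist_eq_dist hne x
    have h1 : infDist x F₁ ≤ τ' := by
      rw [hA₁, cthickening, Set.mem_ofPred_eq] at hx
      rw [infDist]
      exact ENNReal.toReal_le_of_le_ofReal hτ'0.le hx
    have h2 := hFR y (Or.inl hy)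
    have h3 : dist x y ≤ 1 := by rw [← hxy]; exact h1.trans (min_le_right _ _)
    calc ‖x‖ ≤ ‖y‖ + ‖x - y‖ := by
          have := norm_add_le y (x - y)
          rwa [add_sub_cancel] at this
      _ ≤ ‖y‖ + 1 := by rw [← dist_eq_norm]; gcongr
      _ ≤ R₀ := h2
  set ρt : Eu n → ℝ≥0∞ := hatF C' ρ' base with hρt
  have hρtlsc : LowerSemicontinuous ρt :=
    hatF_lsc hC' (hρ'c.mono (compl_subset_compl.2 hCC')) hbasec
  -- second density: distances of the neighbourhoods
  have hdist12 : ∀ x ∈ K ∩ A₁, ∀ y ∈ K ∩ A₂, a ≤ dist' K E ρt x y := by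
    intro x hx y hy
    refine le_dist'_iff.2 fun γ ℓ hγ => ?_
    obtain ⟨s₁, s₂, h0, h12, h2, hs₁, hs₂, hs⟩ := exists_times hγ.nonneg hγ.lip.continuous
      isClosed_cthickening isClosed_cthickening (A₁ := A₁) (A₂ := A₂) (by rw [hγ.left]; exact hx.2)
      (by rw [hγ.right]; exact hy.2)
    have hsub := hγ.sub h0 h12 h2
    have h3 := hsep τ' (min_le_left _ _) _ ⟨hsub.left_mem, hs₁⟩ _ ⟨hsub.right_mem, hs₂⟩
    have h4 := dist'_le (ρ := hatF C ρ' base) hsub
    rw [cost_sub'] at h4
    have h5 : cost (hatF C ρ' base) γ s₁ s₂ = cost ρt γ s₁ s₂ := by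
      rw [cost_eq_Ioo, cost_eq_Ioo]
      refine setLIntegral_congr_fun measurableSet_Ioo fun s hsI => ?_
      have h6 : γ s ∉ N := by
        rintro (h7 | h7)
        · exact (hs s hsI).1 (cthickening_mono (by linarith) _ h7)
        · exact (hs s hsI).2 (cthickening_mono (by linarith) _ h7)
      simp only [hρt, hatF]
      congr 1
      by_cases h8 : γ s ∈ C
      · rw [indicator_of_notMem (by simpa using h8), indicator_of_notMem
          (by simp only [mem_compl_iff, not_not]; exact hCC' h8)]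
      · rw [indicator_of_mem (by simpa using h8), indicator_of_mem]
        rintro (h9 | h9)
        · exact h8 h9
        · exact h6 h9
    rw [h5] at h4
    exact (h3.trans_le (h4.trans (cost_mono h0 h2))).le
  have hdist13 : ∀ x ∈ K ∩ A₁, ∀ y ∈ K, R₁ ≤ ‖y‖ → a ≤ dist' K E ρt x y := by
    intro x hx y hy hyR
    refine le_dist'_iff.2 fun γ ℓ hγ => ?_
    have h1 := hbar γ hγ.lip ℓ hγ.nonneg (by rw [hγ.left]; exact hA₁R x hx.2)
      (by rw [hγ.right]; exact hyR)
    refine (ha1.le.trans h1).trans ?_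
    exact lintegral_mono fun s => hat_b C' _
  have hlocB : ∀ z ∈ K, z ∉ E → ∃ M : ℝ≥0∞, M ≠ ⊤ ∧ ∀ᶠ y in 𝓝 z, ρt y ≤ M := by
    intro z hzK hzE
    by_cases hzC : z ∈ C
    · -- `z` is a point of `F₁ ∪ F₂`, hence interior to `N`
      have hzF : z ∈ F₁ ∪ F₂ := by
        rcases hzC with (h8 | h8) | h8
        exacts [absurd h8 hzE, Or.inl h8, Or.inr h8]
      have hball : ball z (τ' / 2) ⊆ N := by
        intro y hy
        rcases hzF with h8 | h8
        · exact Or.inl (mem_cthickening_of_dist_le y z _ _ h8 (mem_ball.1 hy).le)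
        · exact Or.inr (mem_cthickening_of_dist_le y z _ _ h8 (mem_ball.1 hy).le)
      have hbz := hbase_fin z fun h' => hzE h'.1
      refine ⟨base z + 1, by finiteness, ?_⟩
      filter_upwards [ball_mem_nhds z (half_pos hτ'0), bdd_near hbasec.continuousAt hbz
        (ENNReal.lt_add_right hbz one_ne_zero)] with y hy hy'
      simp only [hρt, hatF]
      rw [indicator_of_notMem, zero_add]
      · exact hy'
      · simp only [mem_compl_iff, not_not]
        exact Or.inr (hball hy)
    · exact hatF_bdd hC hρ'c hρ'fin hbasec hzC (hbase_fin z fun h' => hzE h'.1)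
  have hKcomp : CompactSpace K := isCompact_iff_compactSpace.1 hK
  obtain ⟨u, huc, hu01, huA, huB, hud⟩ := urysohn_lsc (K := K)
    (fun x y => dist' K E ρt x y) (fun x => dist'_self x.2)
    (fun x y z => dist'_triangle _ _ _)
    (fun c hc => dist'_lsc hK hKc hρtlsc hη (hat_eta C') (hat_top C')
      (fun z hzK hzE => by
        obtain ⟨M, hM, hM'⟩ := hlocB z hzK hzE
        refine LocB.of_eventually hM ?_
        filter_upwards [hM', hE.isOpen_compl.mem_nhds hzE] with y hy hy' using ⟨hy', hy⟩) hc)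
    (A := {x : K | (x : Eu n) ∈ A₁}) (B := {x : K | (x : Eu n) ∈ A₂ ∪ {y | R₁ ≤ ‖y‖}})
    (isClosed_cthickening.preimage continuous_subtype_val)
    ((isClosed_cthickening.union (isClosed_le continuous_const continuous_norm)).preimage
      continuous_subtype_val)
    (a := 1 - θ) (by linarith)
    (by
      intro x hx y hy
      have h1 : ENNReal.ofReal (1 - θ) < a := by
        rw [ha, ENNReal.ofReal_lt_ofReal_iff (by linarith)]
        linarith
      refine h1.trans_le ?_
      rcases hy with hy | hy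
      · exact hdist12 x ⟨x.2, hx⟩ y ⟨y.2, hy⟩
      · exact hdist13 x ⟨x.2, hx⟩ y y.2 hy)
  classical
  set v : Eu n → ℝ := fun x => if hx : x ∈ K then (1 - θ) - u ⟨x, hx⟩ else 0 with hv
  have hvK : ∀ x (hx : x ∈ K), v x = (1 - θ) - u ⟨x, hx⟩ := fun x hx => by
    simp only [hv]; rw [dif_pos hx]
  have hvfar : ∀ x, R₁ ≤ ‖x‖ → v x = 0 := by
    intro x hx
    by_cases hxK : x ∈ K
    · rw [hvK x hxK, huB ⟨x, hxK⟩ (Or.inr hx), sub_self]
    · simp only [hv]; rw [dif_neg hxK]
  have hvcont : Continuous v := by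
    rw [← continuousOn_univ]
    have hcov : (univ : Set (Eu n)) = K ∪ {x | R₁ ≤ ‖x‖} := by
      symm
      rw [eq_univ_iff_forall]
      intro x
      rcases le_total ‖x‖ R₁ with h' | h'
      · left
        rw [hKdef, mem_closedBall_zero_iff]
        linarith
      · right; exact h'
    rw [hcov]
    refine ContinuousOn.union_of_isClosed ?_ ?_ hK.isClosed
      (isClosed_le continuous_const continuous_norm)
    · rw [continuousOn_iff_continuous_domRestrict]
      have : K.domRestrict v = fun x : K => (1 - θ) - u x := by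
        funext x
        rw [Set.domRestrict_apply, hvK x x.2]
      rw [this]
      exact continuous_const.sub huc
    · refine (continuousOn_const (c := (0:ℝ))).congr fun x hx => hvfar x hx
  have hvd : ∀ x ∈ K, ∀ y ∈ K, ENNReal.ofReal (v x - v y) ≤ dist' K E ρt x y := by
    intro x hx y hy
    rw [hvK x hx, hvK y hy]
    have := hud ⟨x, hx⟩ ⟨y, hy⟩
    simp only at this
    convert this using 2
    ring
  have hvA₁ : ∀ x ∈ K ∩ A₁, v x = 1 - θ := by
    intro x hx
    rw [hvK x hx.1, huA ⟨x, hx.1⟩ hx.2, sub_zero]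
  have hvA₂ : ∀ x ∈ K ∩ A₂, v x = 0 := by
    intro x hx
    rw [hvK x hx.1, huB ⟨x, hx.1⟩ (Or.inl hx.2), sub_self]
  have hFK : ∀ x ∈ F₁ ∪ F₂, x ∈ K := by
    intro x hx
    rw [hKdef, mem_closedBall_zero_iff]
    have := hFR x hx
    linarith
  have hintK : ∀ z, ‖z‖ < 2 * R₁ → z ∈ interior K := by
    intro z hz
    have : ball (0 : Eu n) (2 * R₁) ⊆ interior K :=
      interior_maximal ball_subset_closedBall isOpen_ball
    exact this (by rwa [mem_ball_zero_iff])
  have hvnear0 : ∀ z, R₁ < ‖z‖ → v =ᶠ[𝓝 z] fun _ => 0 := by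
    intro z hz
    filter_upwards [(isOpen_lt continuous_const continuous_norm).mem_nhds hz] with y hy
    exact hvfar y (le_of_lt hy)
  have hnormE : ∀ z ∉ E, ENNReal.ofReal ‖fderiv ℝ v z‖ ≤ K.indicator ρt z := by
    intro z hzE
    rcases lt_or_ge R₁ ‖z‖ with hz | hz
    · rw [(hvnear0 z hz).fderiv_eq]
      simp
    · have hzK : z ∈ interior K := hintK z (by linarith)
      rw [indicator_of_mem (interior_subset hzK)]
      by_cases hzN : z ∈ N
      · -- `v` is constant near `z`
        have hconst : ∃ c : ℝ, v =ᶠ[𝓝 z] fun _ => c := by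
          rcases hzN with hzN | hzN
          · refine ⟨1 - θ, ?_⟩
            have h1 : thickening τ' F₁ ∈ 𝓝 z := isOpen_thickening.mem_nhds
              (cthickening_subset_thickening' hτ'0 (by linarith) _ hzN)
            filter_upwards [h1, mem_interior_iff_mem_nhds.1 hzK] with y hy hyK
            exact hvA₁ y ⟨hyK, thickening_subset_cthickening _ _ hy⟩
          · refine ⟨0, ?_⟩
            have h1 : thickening τ' F₂ ∈ 𝓝 z := isOpen_thickening.mem_nhds
              (cthickening_subset_thickening' hτ'0 (by linarith) _ hzN)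
            filter_upwards [h1, mem_interior_iff_mem_nhds.1 hzK] with y hy hyK
            exact hvA₂ y ⟨hyK, thickening_subset_cthickening _ _ hy⟩
        obtain ⟨c, hc⟩ := hconst
        rw [hc.fderiv_eq]
        simp
      · have hzC' : z ∉ C' := by
          rintro (h8 | h8)
          · rcases h8 with (h9 | h9) | h9
            · exact hzE h9
            · exact hzN (Or.inl (self_subset_cthickening _ h9))
            · exact hzN (Or.inr (self_subset_cthickening _ h9))
          · exact hzN h8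
        have hcont : ContinuousAt ρt z := by
          have h1 : ContinuousAt (fun x => ρ' x + base x) z :=
            ((hρ'c.continuousAt (hC.isOpen_compl.mem_nhds fun h' => hzC' (hCC' h')))).add
              hbasec.continuousAt
          refine h1.congr ?_
          filter_upwards [hC'.isOpen_compl.mem_nhds hzC'] with y hy
          simp only [hρt, hatF]
          rw [indicator_of_mem hy]
        exact fderiv_le_of_dist' hKc hE hvd hzK hzE hcont
  refine ⟨v, hvcont, ?_, ?_, ?_, ?_, ?_⟩
  · refine HasCompactSupport.of_support_subset_isCompact (isCompact_closedBall (0 : Eu n) R₁) ?_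
    intro x hx
    by_contra hcon
    rw [mem_closedBall_zero_iff, not_le] at hcon
    exact hx (hvfar x hcon.le)
  · intro x hx
    exact hvA₁ x ⟨hFK x (Or.inl hx), self_subset_cthickening _ hx⟩
  · intro x hx
    exact hvA₂ x ⟨hFK x (Or.inr hx), self_subset_cthickening _ hx⟩
  · intro z hzE
    rcases lt_or_ge R₁ ‖z‖ with hz | hz
    · obtain ⟨r, hr, hr'⟩ := Metric.eventually_nhds_iff_ball.1 (hvnear0 z hz)
      refine ⟨r, hr, 0, ?_⟩
      intro x hx y hy
      rw [hr' x hx, hr' y hy]
      simp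
    · have hzK : z ∈ interior K := hintK z (by linarith)
      obtain ⟨M, hM, hM'⟩ := hlocB z (interior_subset hzK) hzE
      obtain ⟨r, hr, hr'⟩ := Metric.eventually_nhds_iff_ball.1
        (hM'.and ((hE.isOpen_compl.eventually_mem hzE).and
          (isOpen_interior.eventually_mem hzK)))
      exact ⟨r, hr, M.toNNReal, lip_of_dist' hKc hvd hM
        (fun y hy => ⟨(hr' y hy).2.1, (hr' y hy).1⟩)
        (fun y hy => interior_subset (hr' y hy).2.2)⟩
  · -- the norm
    have h1 : nrm (volume.restrict Eᶜ) (fun x => ENNReal.ofReal ‖fderiv ℝ v x‖) ≤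
        nrm volume (K.indicator (hatF C ρ' base)) := by
      refine le_trans (nrm_mono_ae (g := K.indicator (hatF C ρ' base)) ?_)
        (nrm_mono_measure Measure.restrict_le_self)
      filter_upwards [ae_restrict_mem hE.isOpen_compl.measurableSet] with z hz
      refine (hnormE z hz).trans ?_
      exact indicator_le_indicator (hatF_anti hCC' z)
    refine h1.trans ?_
    have hKm : MeasurableSet K := hK.measurableSet
    have h2 : nrm volume (K.indicator (hatF C ρ' base)) ≤
        nrm volume (fun x => Cᶜ.indicator ρ' x +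
          (h x + (K.indicator (fun _ => ENNReal.ofReal η) x + K.indicator b x))) := by
      refine nrm_mono fun x => ?_
      by_cases hx : x ∈ K
      · simp only [indicator_of_mem hx, hatF, hbase, le_refl]
      · simp only [indicator_of_notMem hx]
        exact zero_le
    refine h2.trans ?_
    have m1 : AEMeasurable (Cᶜ.indicator ρ') volume :=
      (hρ'm.indicator hC.isOpen_compl.measurableSet).aemeasurable
    have m2 : AEMeasurable h volume := hh.measurable.aemeasurable
    have m3 : AEMeasurable (K.indicator (fun _ : Eu n => ENNReal.ofReal η)) volume :=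
      (measurable_const.indicator hKm).aemeasurable
    have m4 : AEMeasurable (K.indicator b) volume := (hb.measurable.indicator hKm).aemeasurable
    have hind : ∀ (S : Set (Eu n)) (_ : MeasurableSet S) (f : Eu n → ℝ≥0∞),
        nrm volume (S.indicator f) = nrm (volume.restrict S) f := by
      intro S hS f
      unfold nrm
      congr 1
      rw [← lintegral_indicator hS]
      refine lintegral_congr fun x => ?_
      by_cases hx : x ∈ S
      · simp only [indicator_of_mem hx]
      · simp only [indicator_of_notMem hx]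
        exact zero_pow (by omega)
    calc _ ≤ nrm volume (Cᶜ.indicator ρ') + (nrm volume h +
          (nrm volume (K.indicator (fun _ : Eu n => ENNReal.ofReal η)) +
            nrm volume (K.indicator b))) := by
          refine (nrm_add_le hn1 m1 (m2.add (m3.add m4))).trans ?_
          gcongr
          refine (nrm_add_le hn1 m2 (m3.add m4)).trans ?_
          gcongr
          exact nrm_add_le hn1 m3 m4
      _ ≤ ENNReal.ofReal ((1 + θ) / (1 - θ)) * nrm volume ρ + (δ + (δ + δ)) := by
          refine add_le_add ?_ (add_le_add ?_ (add_le_add ?_ ?_))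
          · rw [hind _ hC.isOpen_compl.measurableSet, nrm_le_iff hn1, mul_pow, nrm_pow hn1]
            exact hρ'n
          · exact (nrm_le_iff hn1).2 hhn
          · rw [hind _ hKm]
            exact hηn
          · rw [hind _ hKm]
            exact (nrm_le_iff hn1).2 hbn
      _ = _ := by
          congr 1
          rw [hδ, ← ENNReal.ofReal_add (by positivity) (by positivity),
            ← ENNReal.ofReal_add (by positivity) (by positivity)]
          congr 1
          ring

end Pool.Agent.TH221
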