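import Pool.Agent.TH221.Compact

/-!
Separation of neighbourhoods of two compact sets.
-/

set_option autoImplicit false

open MeasureTheory Set Filter Topology Metric
open scoped ENNReal NNReal

namespace Pool.Agent.TH221

variable {n : ℕ} {K E : Set (Eu n)} {ρ : Eu n → ℝ≥0∞}

/-- last time in `A₁`, then first time in `A₂` -/
lemma exists_times {g : ℝ → Eu n} {L : ℝ} (hL : 0 ≤ L) (hg : Continuous g) {A₁ A₂ : Set (Eu n)}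
    (hA₁ : IsClosed A₁) (hA₂ : IsClosed A₂) (h0 : g 0 ∈ A₁) (h1 : g L ∈ A₂) :
    ∃ s₁ s₂, 0 ≤ s₁ ∧ s₁ ≤ s₂ ∧ s₂ ≤ L ∧ g s₁ ∈ A₁ ∧ g s₂ ∈ A₂ ∧
      ∀ t ∈ Ioo s₁ s₂, g t ∉ A₁ ∧ g t ∉ A₂ := by
  have hc1 : IsCompact (Icc 0 L ∩ g ⁻¹' A₁) :=
    isCompact_Icc.inter_right (hA₁.preimage hg)
  obtain ⟨s₁, hs₁⟩ := hc1.exists_isGreatest ⟨0, ⟨le_rfl, hL⟩, h0⟩
  have hc2 : IsCompact (Icc s₁ L ∩ g ⁻¹' A₂) :=
    isCompact_Icc.inter_right (hA₂.preimage hg)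
  obtain ⟨s₂, hs₂⟩ := hc2.exists_isLeast ⟨L, ⟨hs₁.1.1.2, le_rfl⟩, h1⟩
  refine ⟨s₁, s₂, hs₁.1.1.1, hs₂.1.1.1, hs₂.1.1.2, hs₁.1.2, hs₂.1.2, fun t ht => ⟨fun h => ?_,
    fun h => ?_⟩⟩
  · have := hs₁.2 ⟨⟨hs₁.1.1.1.trans ht.1.le, ht.2.le.trans hs₂.1.1.2⟩, h⟩
    exact absurd ht.1 (not_lt.2 this)
  · have := hs₂.2 ⟨⟨ht.1.le, ht.2.le.trans hs₂.1.1.2⟩, h⟩
    exact absurd ht.2 (not_lt.2 this)

theorem separation (hK : IsCompact K) (hKc : Convex ℝ K) (hρ : LowerSemicontinuous ρ)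
    {η : ℝ} (hη : 0 < η) (hρη : ∀ z ∈ K, ENNReal.ofReal η ≤ ρ z) (hρE : ∀ z ∈ K ∩ E, ρ z = ⊤)
    {F₁ F₂ : Set (Eu n)} (hF₁ : IsClosed F₁) (hF₂ : IsClosed F₂)
    (hB : ∀ z ∈ K, z ∉ E → z ∉ F₁ → z ∉ F₂ → LocB K E ρ z) {a : ℝ≥0∞} (ha : a ≠ ⊤)
    (hd : ∀ x ∈ F₁, ∀ y ∈ F₂, a < dist' K E ρ x y) :
    ∃ τ : ℝ, 0 < τ ∧ ∀ τ', τ' ≤ τ → ∀ x ∈ K ∩ cthickening τ' F₁, ∀ y ∈ K ∩ cthickening τ' F₂,
      a < dist' K E ρ x y := by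
  by_contra hcon
  push Not at hcon
  have hex : ∀ k : ℕ, ∃ x ∈ K ∩ cthickening (1 / ((k:ℝ) + 1)) F₁,
      ∃ y ∈ K ∩ cthickening (1 / ((k:ℝ) + 1)) F₂, dist' K E ρ x y ≤ a := by
    intro k
    obtain ⟨τ', hτ', x, hx, y, hy, hxy⟩ := hcon (1 / ((k:ℝ) + 1)) (by positivity)
    exact ⟨x, ⟨hx.1, cthickening_mono hτ' _ hx.2⟩, y, ⟨hy.1, cthickening_mono hτ' _ hy.2⟩, hxy⟩
  choose x hx y hy hxy using hex
  obtain ⟨p, -, φ, hφ, hp⟩ := (hK.prod hK).tendsto_subseq (x := fun k => (x k, y k))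
    (fun k => ⟨(hx k).1, (hy k).1⟩)
  have h1 : Tendsto (fun k => x (φ k)) atTop (𝓝 p.1) := (continuous_fst.tendsto p).comp hp
  have h2 : Tendsto (fun k => y (φ k)) atTop (𝓝 p.2) := (continuous_snd.tendsto p).comp hp
  have hτ0 : Tendsto (fun k : ℕ => ENNReal.ofReal (1 / ((φ k : ℝ) + 1))) atTop (𝓝 0) := by
    have := (ENNReal.tendsto_ofReal tendsto_one_div_add_atTop_nhds_zero_nat).comp hφ.tendsto_atTop
    simpa [Function.comp_def] using this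
  have hmem : ∀ {F : Set (Eu n)} (_ : IsClosed F) {z : ℕ → Eu n} {z' : Eu n}
      (_ : Tendsto z atTop (𝓝 z')) (_ : ∀ k, z k ∈ cthickening (1 / ((φ k : ℝ) + 1)) F), z' ∈ F := by
    intro F hF z z' hz hzF
    rw [← hF.closure_eq, mem_closure_iff_infEDist_zero]
    refine le_antisymm ?_ zero_le
    refine le_of_tendsto_of_tendsto' ((continuous_infEDist.tendsto z').comp hz) hτ0 fun k => ?_
    exact mem_cthickening_iff.1 (hzF k)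
  have hp1 : p.1 ∈ F₁ := hmem hF₁ h1 fun k => (hx (φ k)).2
  have hp2 : p.2 ∈ F₂ := hmem hF₂ h2 fun k => (hy (φ k)).2
  obtain ⟨g, L, hg, hL, hg0, hgL, hgK, hmain⟩ := limit_curve hK hKc hρ hη hρη hρE ha h1 h2
    fun k => hxy (φ k)
  obtain ⟨s₁, s₂, h3, h4, h5, h6, h7, h8⟩ := exists_times hL hg.continuous hF₁ hF₂
    (by rwa [hg0]) (by rwa [hgL])
  have := hmain s₁ s₂ h3 h4 h5 fun t ht htE =>
    hB _ (hgK t ⟨h3.trans ht.1.le, ht.2.le.trans h5⟩) htE (h8 t ht).1 (h8 t ht).2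
  exact absurd (hd _ h6 _ h7) (not_lt.2 this)

end Pool.Agent.TH221
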