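import Pool.Agent.TH221.Concat

/-!
The splicing lemma.
-/

set_option autoImplicit false

open MeasureTheory Set Filter Topology Metric
open scoped ENNReal NNReal

namespace Pool.Agent.TH221

variable {n : ℕ} {K E : Set (Eu n)} {ρ : Eu n → ℝ≥0∞}

/-- near `z` the density is bounded in `K` and there are no points of `E` -/
def LocB (K E : Set (Eu n)) (ρ : Eu n → ℝ≥0∞) (z : Eu n) : Prop :=
  ∃ r > 0, ∃ M : ℝ≥0∞, M ≠ ⊤ ∧ ∀ y ∈ ball z r ∩ K, y ∉ E ∧ ρ y ≤ M

/-- unit speed segment from `x` to `y` -/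
noncomputable def seg (x y : Eu n) : ℝ → Eu n := fun s => x + (s / dist x y) • (y - x)

lemma seg_lip (x y : Eu n) : LipschitzWith 1 (seg x y) := by
  refine lip_of_le fun s t hst => ?_
  unfold seg
  rw [dist_add_left, dist_eq_norm, ← sub_smul, norm_smul, ← dist_eq_norm y x, dist_comm y x,
    Real.norm_eq_abs, ← sub_div, abs_div, abs_of_nonneg (a := dist x y) dist_nonneg,
    abs_sub_comm, abs_of_nonneg (by linarith)]
  rcases eq_or_ne (dist x y) 0 with h | h
  · rw [h]; simp; exact hst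
  · rw [div_mul_cancel₀ _ h]

lemma seg_right (x y : Eu n) : seg x y (dist x y) = y := by
  unfold seg
  rcases eq_or_ne (dist x y) 0 with h | h
  · rw [dist_eq_zero.1 h]; simp
  · rw [div_self h]; simp

lemma seg_mem {C : Set (Eu n)} (hC : Convex ℝ C) {x y : Eu n} (hx : x ∈ C) (hy : y ∈ C) {s : ℝ}
    (hs : s ∈ Icc 0 (dist x y)) : seg x y s ∈ C := by
  unfold seg
  rcases eq_or_ne (dist x y) 0 with h | h
  · rw [h, div_zero, zero_smul, add_zero]; exact hx
  · refine hC.add_smul_sub_mem hx hy ⟨div_nonneg hs.1 dist_nonneg, ?_⟩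
    exact div_le_one_of_le₀ hs.2 dist_nonneg

lemma seg_crv (hKc : Convex ℝ K) {x y : Eu n} (hx : x ∈ K) (hy : y ∈ K)
    (hE : ∀ s ∈ Icc 0 (dist x y), seg x y s ∉ E) : Crv K E x y (seg x y) (dist x y) where
  lip := seg_lip x y
  nonneg := dist_nonneg
  left := by simp [seg]
  right := seg_right x y
  mem := fun s hs => seg_mem hKc hx hy hs
  cnt := by
    have : seg x y '' Icc 0 (dist x y) ∩ E = ∅ := by
      ext z
      simp only [mem_inter_iff, mem_image, mem_empty_iff_false, iff_false, not_and]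
      rintro ⟨s, hs, rfl⟩
      exact hE s hs
    rw [this]
    exact countable_empty

lemma dist'_seg_le (hKc : Convex ℝ K) {z x y : Eu n} {r : ℝ} {M : ℝ≥0∞}
    (h : ∀ y ∈ ball z r ∩ K, y ∉ E ∧ ρ y ≤ M) (hx : x ∈ ball z r ∩ K) (hy : y ∈ ball z r ∩ K) :
    dist' K E ρ x y ≤ M * ENNReal.ofReal (dist x y) := by
  have hs : ∀ s ∈ Icc 0 (dist x y), seg x y s ∈ ball z r ∩ K := fun s hs =>
    ⟨seg_mem (convex_ball z r) hx.1 hy.1 hs, seg_mem hKc hx.2 hy.2 hs⟩
  refine (dist'_le (seg_crv hKc hx.2 hy.2 fun s h' => (h _ (hs s h')).1)).trans ?_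
  unfold cost
  calc _ ≤ ∫⁻ _s in Icc 0 (dist x y), M :=
        setLIntegral_mono' measurableSet_Icc fun s h' => (h _ (hs s h')).2
    _ = _ := by rw [setLIntegral_const, Real.volume_Icc, sub_zero]

/-- near a point of local boundedness the distance tends to zero -/
lemma tendsto_dist'_zero (hKc : Convex ℝ K) {z : Eu n} (hz : z ∈ K) (hB : LocB K E ρ z)
    {y : ℕ → Eu n} (hyK : ∀ᶠ k in atTop, y k ∈ K) (hy : Tendsto y atTop (𝓝 z)) :
    Tendsto (fun k => dist' K E ρ z (y k)) atTop (𝓝 0) := by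
  obtain ⟨r, hr, M, hM, h⟩ := hB
  have h1 : Tendsto (fun k => M * ENNReal.ofReal (dist z (y k))) atTop (𝓝 0) := by
    have h2 : Tendsto (fun k => ENNReal.ofReal (dist z (y k))) atTop (𝓝 0) := by
      have h3 := ENNReal.tendsto_ofReal ((tendsto_const_nhds (x := z)).dist hy)
      simpa using h3
    have := ENNReal.Tendsto.const_mul h2 (Or.inr hM)
    simpa using this
  refine tendsto_of_tendsto_of_tendsto_of_le_of_le' tendsto_const_nhds h1
    (Eventually.of_forall fun _ => zero_le) ?_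
  filter_upwards [hy.eventually (ball_mem_nhds z hr), hyK] with k hk hkK
  exact dist'_seg_le hKc h ⟨mem_ball_self hr, hz⟩ ⟨hk, hkK⟩

/-- comparison with the portions of nearby curves -/
lemma dist'_middle (hKc : Convex ℝ K) {γ : ℕ → ℝ → Eu n} {p q : ℝ} {P Q : Eu n}
    (hγ : ∀ᶠ k in atTop, Crv K E (γ k p) (γ k q) (fun s => γ k (s + p)) (q - p))
    (hP : P ∈ K) (hQ : Q ∈ K) (hPB : LocB K E ρ P) (hQB : LocB K E ρ Q)
    (htP : Tendsto (fun k => γ k p) atTop (𝓝 P)) (htQ : Tendsto (fun k => γ k q) atTop (𝓝 Q)) :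
    dist' K E ρ P Q ≤ liminf (fun k => cost ρ (γ k) p q) atTop := by
  have h1 := tendsto_dist'_zero (ρ := ρ) (E := E) hKc hP hPB
    (hγ.mono fun k hk => hk.left_mem) htP
  have h2 := tendsto_dist'_zero (ρ := ρ) (E := E) hKc hQ hQB
    (hγ.mono fun k hk => hk.right_mem) htQ
  have h3 : liminf (fun _ : ℕ => dist' K E ρ P Q) atTop ≤
      liminf ((fun k => dist' K E ρ P (γ k p) + cost ρ (γ k) p q) +
        fun k => dist' K E ρ Q (γ k q)) atTop := by
    refine liminf_le_liminf ?_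
    filter_upwards [hγ] with k hk
    refine (dist'_triangle P (γ k q) Q).trans ?_
    rw [Pi.add_apply, dist'_comm (γ k q) Q]
    gcongr
    refine (dist'_triangle P (γ k p) (γ k q)).trans ?_
    gcongr
    refine (dist'_le hk).trans (le_of_eq ?_)
    exact cost_sub'
  rw [liminf_const, ENNReal.liminf_add_of_right_tendsto_zero h2] at h3
  refine h3.trans (le_of_eq ?_)
  exact ENNReal.liminf_add_of_left_tendsto_zero h1 _

lemma add_liminf_le (u v : ℕ → ℝ≥0∞) :
    liminf u atTop + liminf v atTop ≤ liminf (fun k => u k + v k) atTop := by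
  rw [liminf_eq_iSup_iInf_of_nat, liminf_eq_iSup_iInf_of_nat, liminf_eq_iSup_iInf_of_nat]
  rw [ENNReal.iSup_add_iSup_of_monotone]
  · exact iSup_mono fun i => le_iInf₂ fun j hj => add_le_add (iInf₂_le j hj) (iInf₂_le j hj)
  · exact fun i j hij => le_iInf₂ fun k hk => iInf₂_le k (le_trans hij hk)
  · exact fun i j hij => le_iInf₂ fun k hk => iInf₂_le k (le_trans hij hk)

lemma sum_liminf_le {c : ℕ → ℕ → ℝ≥0∞} (N : ℕ) :
    ∑ j ∈ Finset.range N, liminf (fun k => c k j) atTop ≤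
      liminf (fun k => ∑ j ∈ Finset.range N, c k j) atTop := by
  induction N with
  | zero => simp
  | succ N ih =>
    rw [Finset.sum_range_succ]
    simp only [Finset.sum_range_succ]
    exact (add_le_add ih le_rfl).trans (add_liminf_le _ _)

lemma cost_sum {γ : ℝ → Eu n} {s : ℕ → ℝ} (hs : Monotone s) (N : ℕ) :
    ∑ j ∈ Finset.range N, cost ρ γ (s j) (s (j+1)) = cost ρ γ (s 0) (s N) := by
  induction N with
  | zero => simp [cost_self]
  | succ N ih =>
    rw [Finset.sum_range_succ, ih]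
    exact cost_add (hs (Nat.zero_le _)) (hs (Nat.le_succ _))

/-- one-sided splicing -/
theorem half_splice (hK : IsClosed K) (hKc : Convex ℝ K) {η : ℝ} (hη : 0 < η)
    (hρ : ∀ z ∈ K, ENNReal.ofReal η ≤ ρ z) {γ : ℕ → ℝ → Eu n} {ℓ : ℕ → ℝ} {g : ℝ → Eu n} {L : ℝ}
    (hcrv : ∀ᶠ k in atTop, Crv K E (γ k 0) (γ k (ℓ k)) (γ k) (ℓ k))
    (hℓ : Tendsto ℓ atTop (𝓝 L)) (hγ : ∀ s ∈ Icc 0 L, Tendsto (fun k => γ k s) atTop (𝓝 (g s)))
    (hL : 0 < L) (hg : ContinuousOn g (Icc 0 L)) (h0 : LocB K E ρ (g 0))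
    (hdense : ∀ a b, 0 ≤ a → a < b → b ≤ L → ∃ t ∈ Ioo a b, LocB K E ρ (g t)) :
    dist' K E ρ (g 0) (g L) ≤ liminf (fun k => cost ρ (γ k) 0 (ℓ k)) atTop := by
  obtain ⟨u, hum, huL, hut⟩ := exists_seq_strictMono_tendsto' hL
  have hu0 : ∀ j, 0 < u j := fun j => (huL j).1
  have hex : ∀ j, ∃ t ∈ Ioo (u j) (u (j+1)), LocB K E ρ (g t) := fun j =>
    hdense _ _ (hu0 j).le (hum (Nat.lt_succ_self j)) (huL (j+1)).2.le
  choose t ht htB using hex
  set s : ℕ → ℝ := fun j => Nat.casesOn j 0 t with hs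
  have hs0 : s 0 = 0 := rfl
  have hss : ∀ j, s (j+1) = t j := fun j => rfl
  have hsL : ∀ j, s j < L := by
    intro j
    cases j with
    | zero => exact hL
    | succ j => exact (ht j).2.trans (huL (j+1)).2
  have hsmono : Monotone s := by
    refine monotone_nat_of_le_succ fun j => ?_
    cases j with
    | zero => rw [hs0, hss]; exact ((hu0 0).trans (ht 0).1).le
    | succ j => rw [hss, hss]; exact ((ht j).2.trans (ht (j+1)).1).le
  have hs_nonneg : ∀ j, 0 ≤ s j := fun j => hsmono (Nat.zero_le j)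
  have hsB : ∀ j, LocB K E ρ (g (s j)) := by
    intro j
    cases j with
    | zero => exact h0
    | succ j => exact htB j
  have hst : Tendsto s atTop (𝓝 L) := by
    rw [← tendsto_add_atTop_iff_nat 1]
    refine tendsto_of_tendsto_of_tendsto_of_le_of_le hut
      ((tendsto_add_atTop_iff_nat 1).2 hut) (fun j => ?_) (fun j => ?_)
    · exact (ht j).1.le
    · exact (ht j).2.le
  have hgs : Tendsto (fun j => g (s j)) atTop (𝓝 (g L)) := by
    have h1 : ContinuousWithinAt g (Icc 0 L) L := hg L ⟨hL.le, le_rfl⟩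
    exact h1.tendsto.comp (tendsto_nhdsWithin_iff.2 ⟨hst, Eventually.of_forall fun j =>
      ⟨hs_nonneg j, (hsL j).le⟩⟩)
  have hsub : ∀ j, ∀ᶠ k in atTop, Crv K E (γ k (s j)) (γ k (s (j+1)))
      (fun r => γ k (r + s j)) (s (j+1) - s j) := by
    intro j
    filter_upwards [hcrv, hℓ.eventually_const_lt (hsL (j+1))] with k hk hk'
    exact hk.sub (hs_nonneg j) (hsmono (Nat.le_succ j)) hk'.le
  have hgK : ∀ s ∈ Ico 0 L, g s ∈ K := by
    intro s hs
    refine hK.mem_of_tendsto (hγ s ⟨hs.1, hs.2.le⟩) ?_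
    filter_upwards [hcrv, hℓ.eventually_const_lt hs.2] with k hk hk'
    exact hk.mem s ⟨hs.1, hk'.le⟩
  have hmid : ∀ j, dist' K E ρ (g (s j)) (g (s (j+1))) ≤
      liminf (fun k => cost ρ (γ k) (s j) (s (j+1))) atTop := fun j =>
    dist'_middle hKc (hsub j) (hgK _ ⟨hs_nonneg j, hsL j⟩) (hgK _ ⟨hs_nonneg (j+1), hsL (j+1)⟩)
      (hsB j) (hsB (j+1)) (hγ _ ⟨hs_nonneg j, (hsL j).le⟩) (hγ _ ⟨hs_nonneg (j+1), (hsL (j+1)).le⟩)
  have hcti := dist'_countable (E := E) (x := fun j => g (s j)) hK hη hρ hgs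
  refine hcti.trans ?_
  refine (ENNReal.tsum_le_tsum hmid).trans ?_
  rw [ENNReal.tsum_eq_iSup_nat]
  refine iSup_le fun N => ?_
  refine (sum_liminf_le (c := fun k j => cost ρ (γ k) (s j) (s (j+1))) N).trans ?_
  refine liminf_le_liminf ?_
  filter_upwards [hℓ.eventually_const_lt (hsL N)] with k hk
  rw [cost_sum hsmono]
  exact cost_mono le_rfl hk.le

/-- two-sided splicing -/
theorem splice (hK : IsClosed K) (hKc : Convex ℝ K) {η : ℝ} (hη : 0 < η)
    (hρ : ∀ z ∈ K, ENNReal.ofReal η ≤ ρ z) {γ : ℕ → ℝ → Eu n} {ℓ : ℕ → ℝ} {g : ℝ → Eu n} {L : ℝ}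
    (hcrv : ∀ᶠ k in atTop, Crv K E (γ k 0) (γ k (ℓ k)) (γ k) (ℓ k))
    (hℓ : Tendsto ℓ atTop (𝓝 L)) (hγ : ∀ s ∈ Icc 0 L, Tendsto (fun k => γ k s) atTop (𝓝 (g s)))
    (hL : 0 < L) (hg : ContinuousOn g (Icc 0 L))
    (hdense : ∀ a b, 0 ≤ a → a < b → b ≤ L → ∃ t ∈ Ioo a b, LocB K E ρ (g t)) :
    dist' K E ρ (g 0) (g L) ≤ liminf (fun k => cost ρ (γ k) 0 (ℓ k)) atTop := by
  obtain ⟨p, hp, hpB⟩ := hdense 0 L le_rfl hL le_rfl
  have hA : dist' K E ρ (g p) (g L) ≤ liminf (fun k => cost ρ (γ k) p (ℓ k)) atTop := by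
    have h := half_splice (E := E) (γ := fun k s => γ k (s + p)) (ℓ := fun k => ℓ k - p)
      (g := fun s => g (s + p)) (L := L - p) hK hKc hη hρ ?_ (hℓ.sub_const p) ?_ (by linarith [hp.2])
      ?_ (by simpa using hpB) ?_
    · simp only [zero_add, sub_add_cancel] at h
      refine h.trans (le_of_eq ?_)
      congr 1
      funext k
      exact cost_sub'
    · filter_upwards [hcrv, hℓ.eventually_const_lt hp.2] with k hk hk'
      have := hk.sub hp.1.le hk'.le le_rfl
      simpa using this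
    · intro s hs
      exact hγ _ ⟨by linarith [hs.1, hp.1], by linarith [hs.2]⟩
    · refine hg.comp (by fun_prop) fun s hs => ⟨by linarith [hs.1, hp.1], by linarith [hs.2]⟩
    · intro a b ha hab hb
      obtain ⟨t, ht, htB⟩ := hdense (a + p) (b + p) (by linarith [hp.1]) (by linarith) (by linarith)
      exact ⟨t - p, ⟨by linarith [ht.1], by linarith [ht.2]⟩, by simpa using htB⟩
  have hB : dist' K E ρ (g p) (g 0) ≤ liminf (fun k => cost ρ (γ k) 0 p) atTop := by
    have h := half_splice (E := E) (γ := fun k s => γ k (p - s)) (ℓ := fun _ => p)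
      (g := fun s => g (p - s)) (L := p) hK hKc hη hρ ?_ tendsto_const_nhds ?_ hp.1
      ?_ (by simpa using hpB) ?_
    · simp only [sub_zero, sub_self] at h
      refine h.trans (le_of_eq ?_)
      congr 1
      funext k
      rw [cost_rev]; simp
    · filter_upwards [hcrv, hℓ.eventually_const_lt hp.2] with k hk hk'
      have := (hk.sub le_rfl hp.1.le hk'.le).symm
      simpa using this
    · intro s hs
      exact hγ _ ⟨by linarith [hs.2], by linarith [hs.1, hp.2]⟩
    · refine hg.comp (by fun_prop) fun s hs => ⟨by linarith [hs.2], by linarith [hs.1, hp.2]⟩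
    · intro a b ha hab hb
      obtain ⟨t, ht, htB⟩ := hdense (p - b) (p - a) (by linarith) (by linarith)
        (by linarith [hp.2])
      exact ⟨p - t, ⟨by linarith [ht.2], by linarith [ht.1]⟩, by simpa using htB⟩
  calc dist' K E ρ (g 0) (g L) ≤ dist' K E ρ (g 0) (g p) + dist' K E ρ (g p) (g L) :=
        dist'_triangle _ _ _
    _ ≤ liminf (fun k => cost ρ (γ k) 0 p) atTop + liminf (fun k => cost ρ (γ k) p (ℓ k)) atTop := by
        rw [dist'_comm]
        exact add_le_add hB hA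
    _ ≤ liminf (fun k => cost ρ (γ k) 0 p + cost ρ (γ k) p (ℓ k)) atTop :=
        add_liminf_le _ _
    _ ≤ _ := by
        refine liminf_le_liminf ?_
        filter_upwards [hℓ.eventually_const_lt hp.2] with k hk
        exact (cost_add hp.1.le hk.le).le

end Pool.Agent.TH221
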